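import Mathlib

open Complex Metric Set Filter Topology
open scoped ComplexConjugate

namespace Pool.Agent.Helper164.Fixed

section
variable (c : Fin 2 → Fin 5 → ℝ) (j : Fin 2 → Fin 5 → Fin 2) (w : Fin 2 → Fin 5 → ℂ → ℂ)

/-- The linear operator of the reflection system. -/
noncomputable def Lop (t : Fin 2 → ℂ → ℂ) (k : Fin 2) (η : ℂ) : ℂ :=
  ∑ i : Fin 5, (c k i : ℂ) * (t (j k i) (w k i η) - t (j k i) (w k i 0))

/-- The iterates. -/
noncomputable def T (a : Fin 2 → ℂ → ℂ) : ℕ → Fin 2 → ℂ → ℂ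
  | 0 => a
  | m + 1 => Lop c j w (T a m)

/-- The solution. -/
noncomputable def X (a : Fin 2 → ℂ → ℂ) (k : Fin 2) (η : ℂ) : ℂ := ∑' m, T c j w a m k η

/-- Good pairs of functions on the disc of radius two. -/
structure Good (M : ℝ) (t : Fin 2 → ℂ → ℂ) : Prop where
  diff : ∀ k, DifferentiableOn ℂ (t k) (ball 0 2)
  zero : ∀ k, t k 0 = 0
  bound : ∀ k, ∀ η ∈ ball (0 : ℂ) 2, ‖t k η‖ ≤ M
  csym : ∀ k, ∀ η ∈ ball (0 : ℂ) 2, t k (conj η) = conj (t k η)

/-- Good operator data. -/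
structure OpGood (ε : ℝ) : Prop where
  eps_nonneg : 0 ≤ ε
  eps_le : ε ≤ 1 / 10
  coef : ∀ k i, |c k i| ≤ 1
  diff : ∀ k i, DifferentiableOn ℂ (w k i) (ball 0 2)
  bound : ∀ k i, ∀ η ∈ ball (0 : ℂ) 2, ‖w k i η‖ ≤ ε
  csym : ∀ k i, ∀ η ∈ ball (0 : ℂ) 2, w k i (conj η) = conj (w k i η)

end

section
variable {c : Fin 2 → Fin 5 → ℝ} {j : Fin 2 → Fin 5 → Fin 2} {w : Fin 2 → Fin 5 → ℂ → ℂ}
  {ε : ℝ}

lemma conj_mem {η : ℂ} {ρ : ℝ} (h : η ∈ ball (0 : ℂ) ρ) : conj η ∈ ball (0 : ℂ) ρ := by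
  rw [mem_ball_zero_iff] at h ⊢
  rwa [Complex.norm_conj]

lemma Good.schwarz {M : ℝ} {t : Fin 2 → ℂ → ℂ} (ht : Good M t) (k : Fin 2) {η : ℂ}
    (hη : η ∈ ball (0 : ℂ) 2) : ‖t k η‖ ≤ M / 2 * ‖η‖ := by
  have h := Complex.dist_le_div_mul_dist_of_mapsTo_ball (c := (0 : ℂ)) (R₁ := 2) (R₂ := M)
    (ht.diff k) (by
      intro ξ hξ
      rw [ht.zero k, mem_closedBall_zero_iff]
      exact ht.bound k ξ hξ) hη
  rwa [ht.zero k, dist_zero_right, dist_zero_right] at h

lemma OpGood.mem (hw : OpGood c w ε) (k : Fin 2) (i : Fin 5) {η : ℂ} (hη : η ∈ ball (0 : ℂ) 2) :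
    w k i η ∈ ball (0 : ℂ) 2 := by
  rw [mem_ball_zero_iff]
  have h1 := hw.bound k i η hη
  have h2 := hw.eps_le
  linarith

lemma zero_mem_two : (0 : ℂ) ∈ ball (0 : ℂ) 2 := mem_ball_self two_pos

lemma Lop_good (hw : OpGood c w ε) {M : ℝ} (hM : 0 ≤ M) {t : Fin 2 → ℂ → ℂ} (ht : Good M t) :
    Good (M * (5 * ε)) (Lop c j w t) where
  diff k := by
    have : Lop c j w t k = fun η => ∑ i : Fin 5, (c k i : ℂ) *
        (t (j k i) (w k i η) - t (j k i) (w k i 0)) := rfl
    rw [this]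
    apply DifferentiableOn.fun_sum
    intro i _
    apply DifferentiableOn.const_mul
    apply DifferentiableOn.sub_const
    exact (ht.diff (j k i)).comp (hw.diff k i) (fun η hη => hw.mem k i hη)
  zero k := by simp [Lop]
  bound k η hη := by
    unfold Lop
    have h1 : ∀ i ∈ (Finset.univ : Finset (Fin 5)), ‖(c k i : ℂ) *
        (t (j k i) (w k i η) - t (j k i) (w k i 0))‖ ≤ M * ε := by
      intro i _
      rw [norm_mul, Complex.norm_real, Real.norm_eq_abs]
      have h2 := ht.schwarz (j k i) (hw.mem k i hη)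
      have h3 := ht.schwarz (j k i) (hw.mem k i zero_mem_two)
      have h4 := hw.bound k i η hη
      have h5 := hw.bound k i 0 zero_mem_two
      have h6 := norm_sub_le (t (j k i) (w k i η)) (t (j k i) (w k i 0))
      have h7 : ‖t (j k i) (w k i η) - t (j k i) (w k i 0)‖ ≤ M * ε := by nlinarith
      calc |c k i| * ‖t (j k i) (w k i η) - t (j k i) (w k i 0)‖
          ≤ 1 * (M * ε) := mul_le_mul (hw.coef k i) h7 (norm_nonneg _) zero_le_one
        _ = M * ε := one_mul _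
    refine (norm_sum_le_of_le _ h1).trans ?_
    simp only [Finset.sum_const, Finset.card_univ, Fintype.card_fin, nsmul_eq_mul]
    push_cast
    linarith
  csym k η hη := by
    unfold Lop
    rw [map_sum]
    apply Finset.sum_congr rfl
    intro i _
    rw [map_mul, map_sub, Complex.conj_ofReal, hw.csym k i η hη,
      ht.csym _ _ (hw.mem k i hη)]
    have h0 : w k i 0 = conj (w k i 0) := by
      have := hw.csym k i 0 zero_mem_two
      rwa [map_zero] at this
    have h1 := ht.csym (j k i) (w k i 0) (hw.mem k i zero_mem_two)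
    rw [← h0] at h1
    rw [← h1]

lemma T_good (hw : OpGood c w ε) {M : ℝ} (hM : 0 ≤ M) {a : Fin 2 → ℂ → ℂ} (ha : Good M a)
    (m : ℕ) : Good (M * (5 * ε) ^ m) (T c j w a m) := by
  induction m with
  | zero => rw [pow_zero, mul_one]; exact ha
  | succ m ih =>
    have h0 := hw.eps_nonneg
    have h := Lop_good (j := j) hw (by positivity) ih
    rw [pow_succ, ← mul_assoc]
    exact h

lemma geom_summable (hw : OpGood c w ε) (M : ℝ) :
    Summable (fun m : ℕ => M * (5 * ε) ^ m) := by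
  have h0 := hw.eps_nonneg
  have h1 := hw.eps_le
  exact (summable_geometric_of_lt_one (by positivity) (by linarith)).mul_left M

lemma T_summable (hw : OpGood c w ε) {M : ℝ} (hM : 0 ≤ M) {a : Fin 2 → ℂ → ℂ} (ha : Good M a)
    (k : Fin 2) {η : ℂ} (hη : η ∈ ball (0 : ℂ) 2) :
    Summable (fun m => T c j w a m k η) :=
  Summable.of_norm_bounded (geom_summable hw M) (fun m => (T_good hw hM ha m).bound k η hη)

lemma X_good (hw : OpGood c w ε) {M : ℝ} (hM : 0 ≤ M) {a : Fin 2 → ℂ → ℂ} (ha : Good M a) :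
    Good (2 * M) (X c j w a) where
  diff k := by
    have : X c j w a k = fun η => ∑' m, T c j w a m k η := rfl
    rw [this]
    exact Complex.differentiableOn_tsum_of_summable_norm (geom_summable hw M)
      (fun m => (T_good hw hM ha m).diff k) isOpen_ball
      (fun m η hη => (T_good hw hM ha m).bound k η hη)
  zero k := by
    unfold X
    have : (fun m => T c j w a m k 0) = fun _ => 0 := by
      funext m; exact (T_good hw hM ha m).zero k
    rw [this, tsum_zero]
  bound k η hη := by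
    unfold X
    have h1 := tsum_of_norm_bounded (geom_summable hw M).hasSum
      (fun m => (T_good (j := j) hw hM ha m).bound k η hη)
    refine h1.trans ?_
    have h0 := hw.eps_nonneg
    have h2 := hw.eps_le
    rw [tsum_mul_left, tsum_geometric_of_lt_one (by positivity) (by linarith), mul_comm]
    have h3 : (1 - 5 * ε)⁻¹ ≤ 2 := by
      rw [inv_le_comm₀ (by linarith) two_pos]; linarith
    exact mul_le_mul_of_nonneg_right h3 hM
  csym k η hη := by
    unfold X
    rw [Complex.conj_tsum]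
    exact tsum_congr (fun m => (T_good hw hM ha m).csym k η hη)

lemma X_fixed (hw : OpGood c w ε) {M : ℝ} (hM : 0 ≤ M) {a : Fin 2 → ℂ → ℂ} (ha : Good M a)
    (k : Fin 2) {η : ℂ} (hη : η ∈ ball (0 : ℂ) 2) :
    X c j w a k η = a k η + Lop c j w (X c j w a) k η := by
  have h1 : X c j w a k η = T c j w a 0 k η + ∑' m, T c j w a (m + 1) k η :=
    (T_summable hw hM ha k hη).tsum_eq_zero_add
  rw [h1]
  have h2 : HasSum (fun m => T c j w a (m + 1) k η) (Lop c j w (X c j w a) k η) := by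
    show HasSum (fun m => ∑ i : Fin 5, (c k i : ℂ) *
        (T c j w a m (j k i) (w k i η) - T c j w a m (j k i) (w k i 0))) _
    unfold Lop
    apply hasSum_sum
    intro i _
    apply HasSum.mul_left
    exact (T_summable hw hM ha (j k i) (hw.mem k i hη)).hasSum.sub
      (T_summable hw hM ha (j k i) (hw.mem k i zero_mem_two)).hasSum
  rw [h2.tsum_eq]
  rfl

lemma T_cont {Γ : Set ℝ} (hw : OpGood c w ε) {a : ℝ → Fin 2 → ℂ → ℂ}
    (hc : ∀ k, ∀ η ∈ ball (0 : ℂ) 2, ContinuousOn (fun γ => a γ k η) Γ) (m : ℕ) :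
    ∀ k, ∀ η ∈ ball (0 : ℂ) 2, ContinuousOn (fun γ => T c j w (a γ) m k η) Γ := by
  induction m with
  | zero => exact hc
  | succ m ih =>
    intro k η hη
    show ContinuousOn (fun γ => ∑ i : Fin 5, (c k i : ℂ) *
        (T c j w (a γ) m (j k i) (w k i η) - T c j w (a γ) m (j k i) (w k i 0))) Γ
    apply continuousOn_finsetSum
    intro i _
    exact continuousOn_const.mul ((ih _ _ (hw.mem k i hη)).sub (ih _ _ (hw.mem k i zero_mem_two)))

lemma X_cont {Γ : Set ℝ} (hw : OpGood c w ε) {M : ℝ} (hM : 0 ≤ M) {a : ℝ → Fin 2 → ℂ → ℂ}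
    (ha : ∀ γ ∈ Γ, Good M (a γ))
    (hc : ∀ k, ∀ η ∈ ball (0 : ℂ) 2, ContinuousOn (fun γ => a γ k η) Γ) (k : Fin 2) {η : ℂ}
    (hη : η ∈ ball (0 : ℂ) 2) : ContinuousOn (fun γ => X c j w (a γ) k η) Γ := by
  show ContinuousOn (fun γ => ∑' m, T c j w (a γ) m k η) Γ
  exact continuousOn_tsum (fun m => T_cont hw hc m k η hη) (geom_summable hw M)
    (fun m γ hγ => (T_good hw hM (ha γ hγ) m).bound k η hη)

end

end Pool.Agent.Helper164.Fixed
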