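import Mathlib
import Pool.Agent.Helper164.Fixed

open Complex Metric Set Filter Topology
open scoped ComplexConjugate

namespace Pool.Agent.Helper164.Build

open Pool.Agent.Helper164.Fixed

/-- Centres. -/
noncomputable def bb (k : Fin 2) : ℂ := if k = 0 then 0 else 1

/-- Arguments of the six local functions. -/
noncomputable def A (r : ℝ) : Fin 6 → ℂ → ℂ :=
  ![fun z => r / z, fun z => r / (z - 1), fun z => -r / (z + 1), fun z => r * z / 10000,
    fun z => r * z / (10000 - z), fun z => -(r * z) / (10000 + z)]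

/-- Which of the two unknown functions is used. -/
def jA : Fin 6 → Fin 2 := ![0, 1, 1, 0, 1, 1]

/-- Signs. -/
noncomputable def sA (σ : ℝ) : Fin 6 → ℝ := ![1, 1, 1, σ, σ, σ]

/-- embedding of the index of a hole. -/
def kk (k : Fin 2) : Fin 6 := Fin.castLE (by norm_num) k

lemma jA_kk (k : Fin 2) : jA (kk k) = k := by fin_cases k <;> rfl
lemma sA_kk (σ : ℝ) (k : Fin 2) : sA σ (kk k) = 1 := by fin_cases k <;> rfl
lemma A_kk (r : ℝ) (k : Fin 2) (z : ℂ) : A r (kk k) z = r / (z - bb k) := by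
  fin_cases k
  · simp [A, kk, bb]
  · simp [A, kk, bb]

noncomputable def cc (σ : ℝ) (k : Fin 2) (i : Fin 5) : ℝ := σ * sA σ ((kk k).succAbove i)
def jj (k : Fin 2) (i : Fin 5) : Fin 2 := jA ((kk k).succAbove i)
noncomputable def ww (r : ℝ) (k : Fin 2) (i : Fin 5) (η : ℂ) : ℂ :=
  A r ((kk k).succAbove i) (bb k + r * η)

/-- The total function. -/
noncomputable def S (r σ : ℝ) (x : Fin 2 → ℂ → ℂ) (z : ℂ) : ℂ :=
  ∑ i : Fin 6, (sA σ i : ℂ) * x (jA i) (A r i z)

/-- The part of the total function which is regular at the hole `k`. -/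
noncomputable def U (r σ : ℝ) (x : Fin 2 → ℂ → ℂ) (k : Fin 2) (z : ℂ) : ℂ :=
  ∑ i : Fin 5, (sA σ ((kk k).succAbove i) : ℂ) *
    x (jA ((kk k).succAbove i)) (A r ((kk k).succAbove i) z)

lemma S_eq (r σ : ℝ) (x : Fin 2 → ℂ → ℂ) (k : Fin 2) (z : ℂ) :
    S r σ x z = x k (r / (z - bb k)) + U r σ x k z := by
  unfold S U
  rw [Fin.sum_univ_succAbove _ (kk k), sA_kk, jA_kk, A_kk]
  simp

lemma Lop_eq (r σ : ℝ) (x : Fin 2 → ℂ → ℂ) (k : Fin 2) (η : ℂ) :
    Lop (cc σ) jj (ww r) x k η = σ * (U r σ x k (bb k + r * η) - U r σ x k (bb k)) := by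
  unfold Lop U cc jj ww
  rw [← Finset.sum_sub_distrib, Finset.mul_sum]
  apply Finset.sum_congr rfl
  intro i _
  push_cast
  simp only [mul_zero, add_zero]
  ring

lemma A_conj (r : ℝ) (i : Fin 6) (z : ℂ) : A r i (conj z) = conj (A r i z) := by
  have h : (starRingEnd ℂ) (10000 : ℂ) = 10000 := map_ofNat _ _
  fin_cases i <;> simp [A, h]

lemma bb_conj (k : Fin 2) : conj (bb k) = bb k := by
  fin_cases k <;> simp [bb]

/-- bounds for the arguments near a hole. -/
lemma A_near {r : ℝ} (hr : 0 < r) (k : Fin 2) (i : Fin 5) {z : ℂ}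
    (hz : z ∈ ball (bb k) (1 / 4)) :
    ‖A r ((kk k).succAbove i) z‖ ≤ 2 * r ∧
      DifferentiableAt ℂ (A r ((kk k).succAbove i)) z := by
  rw [mem_ball_iff_norm] at hz
  have key : ∀ (c : ℂ) (d : ℝ), (1 / 2 : ℝ) ≤ d → d ≤ ‖c‖ → c ≠ 0 ∧ r / ‖c‖ ≤ 2 * r := by
    intro c d hd hc
    have hc0 : 0 < ‖c‖ := by linarith
    refine ⟨norm_pos_iff.mp hc0, ?_⟩
    rw [div_le_iff₀ hc0]
    nlinarith
  fin_cases k
  · have hz' : ‖z‖ < 1 / 4 := by simpa [bb] using hz
    have h1 : (3 / 4 : ℝ) ≤ ‖z - 1‖ := by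
      have := norm_sub_norm_le (1 : ℂ) z
      rw [norm_one, norm_sub_rev] at this
      linarith
    have h2 : (3 / 4 : ℝ) ≤ ‖z + 1‖ := by
      have := norm_sub_norm_le (1 : ℂ) (-z)
      rw [norm_one, norm_neg, sub_neg_eq_add, add_comm] at this
      linarith
    have h3 : (9999 : ℝ) ≤ ‖10000 - z‖ := by
      have := norm_sub_norm_le (10000 : ℂ) z
      have h : ‖(10000 : ℂ)‖ = 10000 := by simp
      rw [h] at this
      linarith
    have h4 : (9999 : ℝ) ≤ ‖10000 + z‖ := by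
      have := norm_sub_norm_le (10000 : ℂ) (-z)
      have h : ‖(10000 : ℂ)‖ = 10000 := by simp
      rw [h, norm_neg, sub_neg_eq_add] at this
      linarith
    fin_cases i
    · have h5 := key _ _ (by norm_num) h1
      refine ⟨?_, ?_⟩
      · show ‖(r : ℂ) / (z - 1)‖ ≤ 2 * r
        rw [norm_div, Complex.norm_real, Real.norm_of_nonneg hr.le]
        exact h5.2
      · show DifferentiableAt ℂ (fun z : ℂ => (r : ℂ) / (z - 1)) z
        exact (differentiableAt_const _).div (by fun_prop) h5.1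
    · have h5 := key _ _ (by norm_num) h2
      refine ⟨?_, ?_⟩
      · show ‖-(r : ℂ) / (z + 1)‖ ≤ 2 * r
        rw [norm_div, norm_neg, Complex.norm_real, Real.norm_of_nonneg hr.le]
        exact h5.2
      · show DifferentiableAt ℂ (fun z : ℂ => -(r : ℂ) / (z + 1)) z
        exact (differentiableAt_const _).div (by fun_prop) h5.1
    · refine ⟨?_, ?_⟩
      · show ‖(r : ℂ) * z / 10000‖ ≤ 2 * r
        rw [norm_div, norm_mul, Complex.norm_real, Real.norm_of_nonneg hr.le]
        have h : ‖(10000 : ℂ)‖ = 10000 := by simp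
        rw [h, div_le_iff₀ (by norm_num)]
        nlinarith [norm_nonneg z]
      · show DifferentiableAt ℂ (fun z : ℂ => (r : ℂ) * z / 10000) z
        fun_prop
    · have h5 := key _ _ (by norm_num) h3
      refine ⟨?_, ?_⟩
      · show ‖(r : ℂ) * z / (10000 - z)‖ ≤ 2 * r
        rw [norm_div, norm_mul, Complex.norm_real, Real.norm_of_nonneg hr.le,
          div_le_iff₀ (by linarith)]
        nlinarith [norm_nonneg z]
      · show DifferentiableAt ℂ (fun z : ℂ => (r : ℂ) * z / (10000 - z)) z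
        exact DifferentiableAt.div (by fun_prop) (by fun_prop) h5.1
    · have h5 := key _ _ (by norm_num) h4
      refine ⟨?_, ?_⟩
      · show ‖-((r : ℂ) * z) / (10000 + z)‖ ≤ 2 * r
        rw [norm_div, norm_neg, norm_mul, Complex.norm_real, Real.norm_of_nonneg hr.le,
          div_le_iff₀ (by linarith)]
        nlinarith [norm_nonneg z]
      · show DifferentiableAt ℂ (fun z : ℂ => -((r : ℂ) * z) / (10000 + z)) z
        exact DifferentiableAt.div (by fun_prop) (by fun_prop) h5.1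
  · have hz' : ‖z - 1‖ < 1 / 4 := by simpa [bb] using hz
    have h0 : (3 / 4 : ℝ) ≤ ‖z‖ := by
      have := norm_sub_norm_le (1 : ℂ) (1 - z)
      rw [norm_one, norm_sub_rev 1 z, sub_sub_cancel] at this
      linarith
    have h00 : ‖z‖ ≤ 5 / 4 := by
      have := norm_add_le (z - 1) 1
      rw [sub_add_cancel, norm_one] at this
      linarith
    have h2 : (3 / 4 : ℝ) ≤ ‖z + 1‖ := by
      have := norm_sub_norm_le (2 : ℂ) (1 - z)
      have h : ‖(2 : ℂ)‖ = 2 := by simp
      rw [h, norm_sub_rev 1 z, show (2 : ℂ) - (1 - z) = z + 1 by ring] at this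
      linarith
    have h3 : (9997 : ℝ) ≤ ‖10000 - z‖ := by
      have := norm_sub_norm_le (10000 : ℂ) z
      have h : ‖(10000 : ℂ)‖ = 10000 := by simp
      rw [h] at this
      linarith
    have h4 : (9997 : ℝ) ≤ ‖10000 + z‖ := by
      have := norm_sub_norm_le (10000 : ℂ) (-z)
      have h : ‖(10000 : ℂ)‖ = 10000 := by simp
      rw [h, norm_neg, sub_neg_eq_add] at this
      linarith
    fin_cases i
    · have h5 := key _ _ (by norm_num) h0
      refine ⟨?_, ?_⟩
      · show ‖(r : ℂ) / z‖ ≤ 2 * r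
        rw [norm_div, Complex.norm_real, Real.norm_of_nonneg hr.le]
        exact h5.2
      · show DifferentiableAt ℂ (fun z : ℂ => (r : ℂ) / z) z
        exact (differentiableAt_const _).div (by fun_prop) h5.1
    · have h5 := key _ _ (by norm_num) h2
      refine ⟨?_, ?_⟩
      · show ‖-(r : ℂ) / (z + 1)‖ ≤ 2 * r
        rw [norm_div, norm_neg, Complex.norm_real, Real.norm_of_nonneg hr.le]
        exact h5.2
      · show DifferentiableAt ℂ (fun z : ℂ => -(r : ℂ) / (z + 1)) z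
        exact (differentiableAt_const _).div (by fun_prop) h5.1
    · refine ⟨?_, ?_⟩
      · show ‖(r : ℂ) * z / 10000‖ ≤ 2 * r
        rw [norm_div, norm_mul, Complex.norm_real, Real.norm_of_nonneg hr.le]
        have h : ‖(10000 : ℂ)‖ = 10000 := by simp
        rw [h, div_le_iff₀ (by norm_num)]
        nlinarith [norm_nonneg z]
      · show DifferentiableAt ℂ (fun z : ℂ => (r : ℂ) * z / 10000) z
        fun_prop
    · have h5 := key _ _ (by norm_num) h3
      refine ⟨?_, ?_⟩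
      · show ‖(r : ℂ) * z / (10000 - z)‖ ≤ 2 * r
        rw [norm_div, norm_mul, Complex.norm_real, Real.norm_of_nonneg hr.le,
          div_le_iff₀ (by linarith)]
        nlinarith [norm_nonneg z]
      · show DifferentiableAt ℂ (fun z : ℂ => (r : ℂ) * z / (10000 - z)) z
        exact DifferentiableAt.div (by fun_prop) (by fun_prop) h5.1
    · have h5 := key _ _ (by norm_num) h4
      refine ⟨?_, ?_⟩
      · show ‖-((r : ℂ) * z) / (10000 + z)‖ ≤ 2 * r
        rw [norm_div, norm_neg, norm_mul, Complex.norm_real, Real.norm_of_nonneg hr.le,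
          div_le_iff₀ (by linarith)]
        nlinarith [norm_nonneg z]
      · show DifferentiableAt ℂ (fun z : ℂ => -((r : ℂ) * z) / (10000 + z)) z
        exact DifferentiableAt.div (by fun_prop) (by fun_prop) h5.1

lemma near_mem {r : ℝ} (hr : 0 < r) (hr' : r ≤ 1 / 10 ^ 8) (k : Fin 2) {η : ℂ}
    (hη : η ∈ ball (0 : ℂ) 2) : bb k + r * η ∈ ball (bb k) (1 / 4) := by
  rw [mem_ball_iff_norm, add_sub_cancel_left, norm_mul, Complex.norm_real,
    Real.norm_of_nonneg hr.le]
  rw [mem_ball_zero_iff] at hη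
  nlinarith

lemma cc_abs {σ : ℝ} (hσ : |σ| = 1) (k : Fin 2) (i : Fin 5) : |cc σ k i| ≤ 1 := by
  unfold cc
  rw [abs_mul, hσ, one_mul]
  have : ∀ m : Fin 6, |sA σ m| ≤ 1 := by
    intro m
    fin_cases m <;> simp [sA, hσ]
  exact this _

lemma opGood {r σ : ℝ} (hr : 0 < r) (hr' : r ≤ 1 / 10 ^ 8) (hσ : |σ| = 1) :
    OpGood (cc σ) (ww r) (2 * r) where
  eps_nonneg := by positivity
  eps_le := by linarith
  coef := cc_abs hσ
  diff k i η hη := by
    have h1 := (A_near hr k i (near_mem hr hr' k hη)).2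
    have h2 : DifferentiableAt ℂ (fun η : ℂ => bb k + r * η) η := by fun_prop
    exact (h1.comp η h2).differentiableWithinAt
  bound k i η hη := (A_near hr k i (near_mem hr hr' k hη)).1
  csym k i η _ := by
    unfold ww
    rw [← A_conj, map_add, map_mul, Complex.conj_ofReal, bb_conj]

/-- Denominators. -/
noncomputable def DD (k : Fin 2) (z : ℂ) : ℂ := if k = 0 then 1 - z ^ 2 else z * (z + 1)

/-- The logarithms of the leading factors. -/
noncomputable def chi (σ γ : ℝ) (k : Fin 2) (z : ℂ) : ℂ :=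
  log (z ^ 2 + γ) - log (DD k z) +
    σ * (log (1 + γ * z ^ 2 / 100000000) - log (1 - z ^ 2 / 100000000))

/-- An argument of the logarithm is nice. -/
def Nice (u : ℂ) : Prop := 1 / 16 ≤ u.re ∧ ‖u‖ ≤ 16

lemma Nice.slit {u : ℂ} (h : Nice u) : u ∈ slitPlane := Or.inl (by linarith [h.1])

lemma Nice.ne {u : ℂ} (h : Nice u) : u ≠ 0 := slitPlane_ne_zero h.slit

lemma Nice.norm_log {u : ℂ} (h : Nice u) : ‖log u‖ ≤ 6 := by
  have h1 : ‖log u‖ ≤ |(log u).re| + |(log u).im| := Complex.norm_le_abs_re_add_abs_im _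
  rw [Complex.log_re, Complex.log_im] at h1
  have h2 : |arg u| ≤ Real.pi := Complex.abs_arg_le_pi u
  have h3 : (1 / 16 : ℝ) ≤ ‖u‖ := h.1.trans (Complex.re_le_norm u)
  have h4 : |Real.log ‖u‖| ≤ Real.log 16 := by
    rw [abs_le]
    constructor
    · have : Real.log (1 / 16) ≤ Real.log ‖u‖ := Real.log_le_log (by norm_num) h3
      rw [one_div, Real.log_inv] at this
      exact this
    · exact Real.log_le_log (by linarith) h.2
  have h5 : Real.log 16 ≤ 2.8 := by
    have : Real.log 16 = 4 * Real.log 2 := by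
      rw [show (16 : ℝ) = 2 ^ 4 by norm_num, Real.log_pow]; norm_num
    rw [this]
    have := Real.log_two_lt_d9
    linarith
  have h6 := Real.pi_lt_d2
  linarith

lemma Nice.conj_log {u : ℂ} (h : Nice u) : log (conj u) = conj (log u) :=
  Complex.log_conj u (Complex.mem_slitPlane_iff_arg.mp h.slit).1

/-- real and imaginary part bounds -/
lemma near_re_im (k : Fin 2) {z : ℂ} (hz : z ∈ ball (bb k) (1 / 4)) :
    |z.re - (bb k).re| < 1 / 4 ∧ |z.im| < 1 / 4 := by
  rw [mem_ball_iff_norm] at hz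
  have h1 := Complex.abs_re_le_norm (z - bb k)
  have h2 := Complex.abs_im_le_norm (z - bb k)
  have h3 : (bb k).im = 0 := by fin_cases k <;> simp [bb]
  rw [Complex.sub_re] at h1
  rw [Complex.sub_im, h3, sub_zero] at h2
  exact ⟨by linarith, by linarith⟩

lemma near_norm (k : Fin 2) {z : ℂ} (hz : z ∈ ball (bb k) (1 / 4)) : ‖z‖ ≤ 5 / 4 := by
  rw [mem_ball_iff_norm] at hz
  have h1 := norm_add_le (z - bb k) (bb k)
  rw [sub_add_cancel] at h1
  have h2 : ‖bb k‖ ≤ 1 := by fin_cases k <;> simp [bb]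
  linarith

lemma nice_one (k : Fin 2) {γ : ℝ} (hγ : γ ∈ Icc (1 / 4 : ℝ) (1 / 2)) {z : ℂ}
    (hz : z ∈ ball (bb k) (1 / 4)) : Nice (z ^ 2 + γ) := by
  obtain ⟨h1, h2⟩ := near_re_im k hz
  rw [abs_lt] at h1 h2
  have hn := near_norm k hz
  constructor
  · have : (z ^ 2 + (γ : ℂ)).re = z.re ^ 2 - z.im ^ 2 + γ := by
      simp [pow_two]
    rw [this]
    have := hγ.1
    nlinarith [sq_nonneg z.re]
  · refine (norm_add_le _ _).trans ?_
    rw [norm_pow, Complex.norm_real, Real.norm_eq_abs, abs_of_nonneg (by linarith [hγ.1])]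
    have := hγ.2
    nlinarith [norm_nonneg z]

lemma nice_DD (k : Fin 2) {z : ℂ} (hz : z ∈ ball (bb k) (1 / 4)) : Nice (DD k z) := by
  obtain ⟨h1, h2⟩ := near_re_im k hz
  rw [abs_lt] at h1 h2
  have hn := near_norm k hz
  fin_cases k
  · have e : DD 0 z = 1 - z ^ 2 := by simp [DD]
    have e1 : (bb 0).re = 0 := by simp [bb]
    change Nice (DD 0 z)
    change -(1 / 4) < z.re - (bb 0).re ∧ z.re - (bb 0).re < 1 / 4 at h1
    rw [e1] at h1
    rw [e]
    constructor
    · have : (1 - z ^ 2).re = 1 - (z.re ^ 2 - z.im ^ 2) := by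
        simp [pow_two]
      rw [this]
      nlinarith [sq_nonneg z.im]
    · refine (norm_sub_le _ _).trans ?_
      rw [norm_pow, norm_one]
      nlinarith [norm_nonneg z]
  · have e : DD 1 z = z * (z + 1) := by simp [DD]
    have e1 : (bb 1).re = 1 := by simp [bb]
    change Nice (DD 1 z)
    change -(1 / 4) < z.re - (bb 1).re ∧ z.re - (bb 1).re < 1 / 4 at h1
    rw [e1] at h1
    rw [e]
    constructor
    · have : (z * (z + 1)).re = z.re ^ 2 + z.re - z.im ^ 2 := by
        simp; ring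
      rw [this]
      nlinarith
    · rw [norm_mul]
      have := norm_add_le z 1
      rw [norm_one] at this
      nlinarith [norm_nonneg z, norm_nonneg (z + 1)]

lemma nice_near_one {u : ℂ} (hu : ‖u‖ ≤ 1 / 2) : Nice (1 + u) := by
  constructor
  · have := Complex.abs_re_le_norm u
    have h := neg_abs_le u.re
    simp only [Complex.add_re, Complex.one_re]
    linarith
  · have := norm_add_le 1 u
    rw [norm_one] at this
    linarith

lemma small_term {γ : ℝ} (hγ : γ ∈ Icc (1 / 4 : ℝ) (1 / 2)) {z : ℂ} (hz : ‖z‖ ≤ 200) :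
    ‖(γ : ℂ) * z ^ 2 / 100000000‖ ≤ 1 / 4000 ∧ ‖z ^ 2 / 100000000‖ ≤ 1 / 2000 := by
  have h : ‖(100000000 : ℂ)‖ = 100000000 := by simp
  have h1 : ‖z‖ ^ 2 ≤ 200 ^ 2 := pow_le_pow_left₀ (norm_nonneg _) hz 2
  have h2 : ‖z ^ 2 / 100000000‖ ≤ 1 / 2000 := by
    rw [norm_div, norm_pow, h, div_le_iff₀ (by norm_num)]
    linarith
  refine ⟨?_, h2⟩
  rw [mul_div_assoc, norm_mul, Complex.norm_real, Real.norm_of_nonneg (by linarith [hγ.1])]
  have := hγ.2
  nlinarith [norm_nonneg (z ^ 2 / 100000000), hγ.1]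

lemma nice_three {γ : ℝ} (hγ : γ ∈ Icc (1 / 4 : ℝ) (1 / 2)) {z : ℂ} (hz : ‖z‖ ≤ 200) :
    Nice (1 + γ * z ^ 2 / 100000000) :=
  nice_near_one ((small_term hγ hz).1.trans (by norm_num))

lemma nice_four {z : ℂ} (hz : ‖z‖ ≤ 200) : Nice (1 - z ^ 2 / 100000000) := by
  have h := (small_term (γ := 1 / 4) ⟨by norm_num, by norm_num⟩ hz).2
  rw [sub_eq_add_neg]
  exact nice_near_one (by rw [norm_neg]; linarith)

lemma chi_norm {σ γ : ℝ} (hσ : |σ| = 1) (hγ : γ ∈ Icc (1 / 4 : ℝ) (1 / 2)) (k : Fin 2) {z : ℂ}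
    (hz : z ∈ ball (bb k) (1 / 4)) : ‖chi σ γ k z‖ ≤ 24 := by
  have hn : ‖z‖ ≤ 200 := (near_norm k hz).trans (by norm_num)
  have h1 := (nice_one k hγ hz).norm_log
  have h2 := (nice_DD k hz).norm_log
  have h3 := (nice_three hγ hn).norm_log
  have h4 := (nice_four hn).norm_log
  unfold chi
  refine (norm_add_le _ _).trans ?_
  rw [norm_mul, Complex.norm_real, Real.norm_eq_abs, hσ, one_mul]
  have h5 := norm_sub_le (log (z ^ 2 + γ)) (log (DD k z))
  have h6 := norm_sub_le (log (1 + γ * z ^ 2 / 100000000)) (log (1 - z ^ 2 / 100000000))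
  linarith

lemma DD_differentiable (k : Fin 2) : Differentiable ℂ (DD k) := by
  fin_cases k
  · have : DD 0 = fun z => 1 - z ^ 2 := by funext z; simp [DD]
    change Differentiable ℂ (DD 0)
    rw [this]; fun_prop
  · have : DD 1 = fun z => z * (z + 1) := by funext z; simp [DD]
    change Differentiable ℂ (DD 1)
    rw [this]; fun_prop

lemma chi_differentiable {σ γ : ℝ} (hγ : γ ∈ Icc (1 / 4 : ℝ) (1 / 2)) (k : Fin 2) :
    DifferentiableOn ℂ (chi σ γ k) (ball (bb k) (1 / 4)) := by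
  intro z hz
  have hn : ‖z‖ ≤ 200 := (near_norm k hz).trans (by norm_num)
  apply DifferentiableAt.differentiableWithinAt
  unfold chi
  have hD := (DD_differentiable k).differentiableAt (x := z)
  refine DifferentiableAt.add (DifferentiableAt.sub ?_ ?_)
    (DifferentiableAt.const_mul (DifferentiableAt.sub ?_ ?_) _)
  · exact DifferentiableAt.clog (by fun_prop) (nice_one k hγ hz).slit
  · exact DifferentiableAt.clog hD (nice_DD k hz).slit
  · exact DifferentiableAt.clog (by fun_prop) (nice_three hγ hn).slit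
  · exact DifferentiableAt.clog (by fun_prop) (nice_four hn).slit

lemma DD_conj (k : Fin 2) (z : ℂ) : DD k (conj z) = conj (DD k z) := by
  fin_cases k <;> simp [DD]

lemma chi_conj {σ γ : ℝ} (hγ : γ ∈ Icc (1 / 4 : ℝ) (1 / 2)) (k : Fin 2) {z : ℂ}
    (hz : z ∈ ball (bb k) (1 / 4)) : chi σ γ k (conj z) = conj (chi σ γ k z) := by
  have hn : ‖z‖ ≤ 200 := (near_norm k hz).trans (by norm_num)
  have h8 : (starRingEnd ℂ) (100000000 : ℂ) = 100000000 := map_ofNat _ _
  unfold chi
  rw [map_add, map_sub, map_mul, map_sub, Complex.conj_ofReal, ← (nice_one k hγ hz).conj_log,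
    ← (nice_DD k hz).conj_log, ← (nice_three hγ hn).conj_log, ← (nice_four hn).conj_log, DD_conj]
  simp only [map_add, map_sub, map_mul, map_pow, map_div₀, map_one, Complex.conj_ofReal, h8]

lemma chi_continuous {σ : ℝ} (k : Fin 2) {z : ℂ}
    (hz : z ∈ ball (bb k) (1 / 4)) :
    ContinuousOn (fun γ : ℝ => chi σ γ k z) (Icc (1 / 4 : ℝ) (1 / 2)) := by
  have hn : ‖z‖ ≤ 200 := (near_norm k hz).trans (by norm_num)
  unfold chi
  refine ContinuousOn.add (ContinuousOn.sub ?_ continuousOn_const)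
    (ContinuousOn.mul continuousOn_const (ContinuousOn.sub ?_ continuousOn_const))
  · apply ContinuousOn.clog (by fun_prop)
    intro γ hγ
    exact (nice_one k hγ hz).slit
  · apply ContinuousOn.clog (by fun_prop)
    intro γ hγ
    exact (nice_three hγ hn).slit

lemma chi_schwarz {σ γ : ℝ} (hσ : |σ| = 1) (hγ : γ ∈ Icc (1 / 4 : ℝ) (1 / 2)) (k : Fin 2) {z : ℂ}
    (hz : z ∈ ball (bb k) (1 / 4)) :
    ‖chi σ γ k z - chi σ γ k (bb k)‖ ≤ 192 * ‖z - bb k‖ := by
  have hb : bb k ∈ ball (bb k) (1 / 4) := mem_ball_self (by norm_num)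
  have h := Complex.dist_le_div_mul_dist_of_mapsTo_ball (c := bb k) (R₁ := 1 / 4) (R₂ := 48)
    (chi_differentiable (σ := σ) hγ k) (by
      intro ξ hξ
      rw [mem_closedBall_iff_norm]
      have h1 := chi_norm hσ hγ k hξ
      have h2 := chi_norm hσ hγ k hb
      exact (norm_sub_le _ _).trans (by linarith)) hz
  rw [dist_eq_norm, dist_eq_norm] at h
  refine h.trans (le_of_eq ?_)
  norm_num

/-- The source term. -/
noncomputable def aa (r σ γ : ℝ) (k : Fin 2) (η : ℂ) : ℂ :=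
  σ * (chi σ γ k (bb k + r * η) - chi σ γ k (bb k))

lemma bb_mem (k : Fin 2) : bb k ∈ ball (bb k) (1 / 4) := mem_ball_self (by norm_num)

lemma aa_good {r σ γ : ℝ} (hr : 0 < r) (hr' : r ≤ 1 / 10 ^ 8) (hσ : |σ| = 1)
    (hγ : γ ∈ Icc (1 / 4 : ℝ) (1 / 2)) : Good (400 * r) (aa r σ γ) where
  diff k := by
    unfold aa
    apply DifferentiableOn.const_mul
    apply DifferentiableOn.sub_const
    refine (chi_differentiable hγ k).comp (by fun_prop) (fun η hη => near_mem hr hr' k hη)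
  zero k := by simp [aa]
  bound k η hη := by
    unfold aa
    rw [norm_mul, Complex.norm_real, Real.norm_eq_abs, hσ, one_mul]
    refine (chi_schwarz hσ hγ k (near_mem hr hr' k hη)).trans ?_
    rw [add_sub_cancel_left, norm_mul, Complex.norm_real, Real.norm_of_nonneg hr.le]
    rw [mem_ball_zero_iff] at hη
    nlinarith
  csym k η hη := by
    unfold aa
    have h1 := chi_conj (σ := σ) hγ k (near_mem hr hr' k hη)
    have h2 := chi_conj (σ := σ) hγ k (bb_mem k)
    rw [map_add, map_mul, Complex.conj_ofReal, bb_conj] at h1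
    rw [bb_conj] at h2
    rw [h1, map_mul, map_sub, Complex.conj_ofReal, ← h2]

/-- The solution of the reflection system. -/
noncomputable def xs (r σ γ : ℝ) : Fin 2 → ℂ → ℂ := X (cc σ) jj (ww r) (aa r σ γ)

lemma xs_good {r σ γ : ℝ} (hr : 0 < r) (hr' : r ≤ 1 / 10 ^ 8) (hσ : |σ| = 1)
    (hγ : γ ∈ Icc (1 / 4 : ℝ) (1 / 2)) : Good (800 * r) (xs r σ γ) := by
  have h := X_good (j := jj) (opGood hr hr' hσ) (by positivity) (aa_good hr hr' hσ hγ)
  have e : 2 * (400 * r) = 800 * r := by ring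
  rwa [e] at h

/-- The regular part near the hole `k`, with the leading logarithm included. -/
noncomputable def V (r σ γ : ℝ) (k : Fin 2) (z : ℂ) : ℂ :=
  chi σ γ k z + U r σ (xs r σ γ) k z

lemma xs_fixed {r σ γ : ℝ} (hr : 0 < r) (hr' : r ≤ 1 / 10 ^ 8) (hσ : |σ| = 1)
    (hγ : γ ∈ Icc (1 / 4 : ℝ) (1 / 2)) (k : Fin 2) {η : ℂ} (hη : η ∈ ball (0 : ℂ) 2) :
    xs r σ γ k η = σ * (V r σ γ k (bb k + r * η) - V r σ γ k (bb k)) := by
  have h := X_fixed (j := jj) (opGood hr hr' hσ) (by positivity) (aa_good hr hr' hσ hγ) k hη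
  change xs r σ γ k η = aa r σ γ k η + Lop (cc σ) jj (ww r) (xs r σ γ) k η at h
  rw [h, Lop_eq]
  unfold aa V
  ring

lemma xs_cont {r σ : ℝ} (hr : 0 < r) (hr' : r ≤ 1 / 10 ^ 8) (hσ : |σ| = 1) (k : Fin 2) {η : ℂ}
    (hη : η ∈ ball (0 : ℂ) 2) :
    ContinuousOn (fun γ => xs r σ γ k η) (Icc (1 / 4 : ℝ) (1 / 2)) := by
  apply X_cont (opGood hr hr' hσ) (M := 400 * r) (by positivity)
    (fun γ hγ => aa_good hr hr' hσ hγ) _ k hη
  intro k η hη
  unfold aa
  exact continuousOn_const.mul ((chi_continuous k (near_mem hr hr' k hη)).sub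
    (chi_continuous k (bb_mem k)))

end Pool.Agent.Helper164.Build
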