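import Mathlib
import Pool.Agent.Helper164.Build

open Complex Metric Set Filter Topology
open scoped ComplexConjugate

namespace Pool.Agent.Helper164.Build

open Pool.Agent.Helper164.Fixed

/-- The region on which everything is holomorphic. -/
def Om (r : ℝ) : Set ℂ := {z | ‖z‖ < 200 ∧ r / 2 < ‖z‖ ∧ r / 2 < ‖z - 1‖ ∧ r / 2 < ‖z + 1‖}

lemma Om_open (r : ℝ) : IsOpen (Om r) := by
  have h1 : IsOpen {z : ℂ | ‖z‖ < 200} := isOpen_lt continuous_norm continuous_const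
  have h2 : IsOpen {z : ℂ | r / 2 < ‖z‖} := isOpen_lt continuous_const continuous_norm
  have h3 : IsOpen {z : ℂ | r / 2 < ‖z - 1‖} :=
    isOpen_lt continuous_const (continuous_id.sub continuous_const).norm
  have h4 : IsOpen {z : ℂ | r / 2 < ‖z + 1‖} :=
    isOpen_lt continuous_const (continuous_id.add continuous_const).norm
  exact h1.inter (h2.inter (h3.inter h4))

lemma A_Om {r : ℝ} (hr : 0 < r) (hr' : r ≤ 1 / 10 ^ 8) (i : Fin 6) {z : ℂ} (hz : z ∈ Om r) :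
    A r i z ∈ ball (0 : ℂ) 2 ∧ DifferentiableAt ℂ (A r i) z := by
  obtain ⟨h200, h0, h1, h2⟩ := hz
  have key : ∀ c : ℂ, r / 2 < ‖c‖ → c ≠ 0 ∧ r / ‖c‖ < 2 := by
    intro c hc
    have hc0 : 0 < ‖c‖ := by linarith
    refine ⟨norm_pos_iff.mp hc0, ?_⟩
    rw [div_lt_iff₀ hc0]
    linarith
  have h3 : (9800 : ℝ) ≤ ‖10000 - z‖ := by
    have := norm_sub_norm_le (10000 : ℂ) z
    have h : ‖(10000 : ℂ)‖ = 10000 := by simp
    rw [h] at this
    linarith
  have h4 : (9800 : ℝ) ≤ ‖10000 + z‖ := by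
    have := norm_sub_norm_le (10000 : ℂ) (-z)
    have h : ‖(10000 : ℂ)‖ = 10000 := by simp
    rw [h, norm_neg, sub_neg_eq_add] at this
    linarith
  rw [mem_ball_zero_iff]
  fin_cases i
  · refine ⟨?_, ?_⟩
    · show ‖(r : ℂ) / z‖ < 2
      rw [norm_div, Complex.norm_real, Real.norm_of_nonneg hr.le]
      exact (key z h0).2
    · show DifferentiableAt ℂ (fun z : ℂ => (r : ℂ) / z) z
      exact (differentiableAt_const _).div (by fun_prop) (key z h0).1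
  · refine ⟨?_, ?_⟩
    · show ‖(r : ℂ) / (z - 1)‖ < 2
      rw [norm_div, Complex.norm_real, Real.norm_of_nonneg hr.le]
      exact (key _ h1).2
    · show DifferentiableAt ℂ (fun z : ℂ => (r : ℂ) / (z - 1)) z
      exact (differentiableAt_const _).div (by fun_prop) (key _ h1).1
  · refine ⟨?_, ?_⟩
    · show ‖-(r : ℂ) / (z + 1)‖ < 2
      rw [norm_div, norm_neg, Complex.norm_real, Real.norm_of_nonneg hr.le]
      exact (key _ h2).2
    · show DifferentiableAt ℂ (fun z : ℂ => -(r : ℂ) / (z + 1)) z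
      exact (differentiableAt_const _).div (by fun_prop) (key _ h2).1
  · refine ⟨?_, ?_⟩
    · show ‖(r : ℂ) * z / 10000‖ < 2
      rw [norm_div, norm_mul, Complex.norm_real, Real.norm_of_nonneg hr.le]
      have h : ‖(10000 : ℂ)‖ = 10000 := by simp
      rw [h, div_lt_iff₀ (by norm_num)]
      nlinarith [norm_nonneg z]
    · show DifferentiableAt ℂ (fun z : ℂ => (r : ℂ) * z / 10000) z
      fun_prop
  · refine ⟨?_, ?_⟩
    · show ‖(r : ℂ) * z / (10000 - z)‖ < 2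
      rw [norm_div, norm_mul, Complex.norm_real, Real.norm_of_nonneg hr.le,
        div_lt_iff₀ (by linarith)]
      nlinarith [norm_nonneg z]
    · show DifferentiableAt ℂ (fun z : ℂ => (r : ℂ) * z / (10000 - z)) z
      exact DifferentiableAt.div (by fun_prop) (by fun_prop) (norm_pos_iff.mp (by linarith))
  · refine ⟨?_, ?_⟩
    · show ‖-((r : ℂ) * z) / (10000 + z)‖ < 2
      rw [norm_div, norm_neg, norm_mul, Complex.norm_real, Real.norm_of_nonneg hr.le,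
        div_lt_iff₀ (by linarith)]
      nlinarith [norm_nonneg z]
    · show DifferentiableAt ℂ (fun z : ℂ => -((r : ℂ) * z) / (10000 + z)) z
      exact DifferentiableAt.div (by fun_prop) (by fun_prop) (norm_pos_iff.mp (by linarith))

lemma S_diff {r σ M : ℝ} (hr : 0 < r) (hr' : r ≤ 1 / 10 ^ 8) {x : Fin 2 → ℂ → ℂ}
    (hx : Good M x) : DifferentiableOn ℂ (S r σ x) (Om r) := by
  intro z hz
  apply DifferentiableAt.differentiableWithinAt
  unfold S
  apply DifferentiableAt.fun_sum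
  intro i _
  apply DifferentiableAt.const_mul
  obtain ⟨h1, h2⟩ := A_Om hr hr' i hz
  exact ((hx.diff (jA i)).differentiableAt (isOpen_ball.mem_nhds h1)).comp z h2

lemma sA_abs {σ : ℝ} (hσ : |σ| = 1) (m : Fin 6) : |sA σ m| = 1 := by
  fin_cases m <;> simp [sA, hσ]

lemma S_bound {r σ M : ℝ} (hr : 0 < r) (hr' : r ≤ 1 / 10 ^ 8) (hσ : |σ| = 1)
    {x : Fin 2 → ℂ → ℂ} (hx : Good M x) {z : ℂ} (hz : z ∈ Om r) : ‖S r σ x z‖ ≤ 6 * M := by
  unfold S
  have h1 : ∀ i ∈ (Finset.univ : Finset (Fin 6)), ‖(sA σ i : ℂ) * x (jA i) (A r i z)‖ ≤ M := by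
    intro i _
    rw [norm_mul, Complex.norm_real, Real.norm_eq_abs, sA_abs hσ, one_mul]
    exact hx.bound _ _ (A_Om hr hr' i hz).1
  refine (norm_sum_le_of_le _ h1).trans ?_
  simp

lemma near_ball {r : ℝ} (hr : 0 < r) (hr' : r ≤ 1 / 10 ^ 8) (k : Fin 2) (i : Fin 5) {z : ℂ}
    (hz : z ∈ ball (bb k) (1 / 4)) : A r ((kk k).succAbove i) z ∈ ball (0 : ℂ) 2 := by
  rw [mem_ball_zero_iff]
  have := (A_near hr k i hz).1
  linarith

lemma U_diff {r σ M : ℝ} (hr : 0 < r) (hr' : r ≤ 1 / 10 ^ 8) {x : Fin 2 → ℂ → ℂ}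
    (hx : Good M x) (k : Fin 2) : DifferentiableOn ℂ (U r σ x k) (ball (bb k) (1 / 4)) := by
  intro z hz
  apply DifferentiableAt.differentiableWithinAt
  unfold U
  apply DifferentiableAt.fun_sum
  intro i _
  apply DifferentiableAt.const_mul
  exact ((hx.diff _).differentiableAt (isOpen_ball.mem_nhds (near_ball hr hr' k i hz))).comp z
    (A_near hr k i hz).2

lemma U_bound {r σ M : ℝ} (hr : 0 < r) (hr' : r ≤ 1 / 10 ^ 8) (hσ : |σ| = 1) (hM : 0 ≤ M)
    {x : Fin 2 → ℂ → ℂ} (hx : Good M x) (k : Fin 2) {z : ℂ} (hz : z ∈ ball (bb k) (1 / 4)) :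
    ‖U r σ x k z‖ ≤ 5 * (M * r) := by
  unfold U
  have h1 : ∀ i ∈ (Finset.univ : Finset (Fin 5)), ‖(sA σ ((kk k).succAbove i) : ℂ) *
      x (jA ((kk k).succAbove i)) (A r ((kk k).succAbove i) z)‖ ≤ M * r := by
    intro i _
    rw [norm_mul, Complex.norm_real, Real.norm_eq_abs, sA_abs hσ, one_mul]
    have h2 := hx.schwarz (jA ((kk k).succAbove i)) (near_ball hr hr' k i hz)
    have h3 := (A_near hr k i hz).1
    nlinarith
  refine (norm_sum_le_of_le _ h1).trans ?_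
  simp

lemma U_conj {r σ M : ℝ} (hr : 0 < r) (hr' : r ≤ 1 / 10 ^ 8)
    {x : Fin 2 → ℂ → ℂ} (hx : Good M x) (k : Fin 2) {z : ℂ} (hz : z ∈ ball (bb k) (1 / 4)) :
    U r σ x k (conj z) = conj (U r σ x k z) := by
  unfold U
  rw [map_sum]
  apply Finset.sum_congr rfl
  intro i _
  rw [map_mul, Complex.conj_ofReal, A_conj, hx.csym _ _ (near_ball hr hr' k i hz)]

lemma S_conj {r σ M : ℝ} (hr : 0 < r) (hr' : r ≤ 1 / 10 ^ 8)
    {x : Fin 2 → ℂ → ℂ} (hx : Good M x) {z : ℂ} (hz : z ∈ Om r) :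
    S r σ x (conj z) = conj (S r σ x z) := by
  unfold S
  rw [map_sum]
  apply Finset.sum_congr rfl
  intro i _
  rw [map_mul, Complex.conj_ofReal, A_conj, hx.csym _ _ (A_Om hr hr' i hz).1]

lemma V_conj {r σ γ : ℝ} (hr : 0 < r) (hr' : r ≤ 1 / 10 ^ 8) (hσ : |σ| = 1)
    (hγ : γ ∈ Icc (1 / 4 : ℝ) (1 / 2)) (k : Fin 2) {z : ℂ} (hz : z ∈ ball (bb k) (1 / 4)) :
    V r σ γ k (conj z) = conj (V r σ γ k z) := by
  unfold V
  rw [map_add, chi_conj hγ k hz, U_conj hr hr' (xs_good hr hr' hσ hγ) k hz]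

/-- The reflection relation on the small circles. -/
lemma bdry_rel {r σ γ : ℝ} (hr : 0 < r) (hr' : r ≤ 1 / 10 ^ 8) (hσ : |σ| = 1)
    (hγ : γ ∈ Icc (1 / 4 : ℝ) (1 / 2)) (k : Fin 2) {z : ℂ} (hz : ‖z - bb k‖ = r) :
    chi σ γ k z + S r σ (xs r σ γ) z =
      V r σ γ k z + σ * (conj (V r σ γ k z) - V r σ γ k (bb k)) := by
  have hzb : z ∈ ball (bb k) (1 / 4) := by
    rw [mem_ball_iff_norm, hz]; linarith
  have hne : z - bb k ≠ 0 := norm_pos_iff.mp (by rw [hz]; exact hr)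
  have hη : (r : ℂ) / (z - bb k) ∈ ball (0 : ℂ) 2 := by
    rw [mem_ball_zero_iff, norm_div, Complex.norm_real, Real.norm_of_nonneg hr.le, hz,
      div_self hr.ne']
    norm_num
  have h1 := xs_fixed hr hr' hσ hγ k hη
  have h2 : bb k + r * ((r : ℂ) / (z - bb k)) = conj z := by
    have h3 : (z - bb k) * conj (z - bb k) = (r : ℂ) ^ 2 := by
      rw [Complex.mul_conj, Complex.normSq_eq_norm_sq, hz]; push_cast; ring
    have h4 : (r : ℂ) * (r / (z - bb k)) = conj (z - bb k) := by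
      field_simp
      rw [← h3]
    rw [h4, map_sub, bb_conj]; ring
  rw [S_eq r σ (xs r σ γ) k z, h1, h2, V_conj hr hr' hσ hγ k hzb]
  unfold V
  ring

lemma V_center_real {r σ γ : ℝ} (hr : 0 < r) (hr' : r ≤ 1 / 10 ^ 8) (hσ : |σ| = 1)
    (hγ : γ ∈ Icc (1 / 4 : ℝ) (1 / 2)) (k : Fin 2) : (V r σ γ k (bb k)).im = 0 := by
  have h := V_conj hr hr' hσ hγ k (bb_mem k)
  rw [bb_conj] at h
  have h2 := congrArg Complex.im h
  rw [Complex.conj_im] at h2
  linarith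

/-- The functions `E` and `H`. -/
noncomputable def EE (r γ : ℝ) (z : ℂ) : ℂ := S r (-1) (xs r (-1) γ) z
noncomputable def HH (r γ : ℝ) (z : ℂ) : ℂ := S r 1 (xs r 1 γ) z

lemma E_bdry {r γ : ℝ} (hr : 0 < r) (hr' : r ≤ 1 / 10 ^ 8)
    (hγ : γ ∈ Icc (1 / 4 : ℝ) (1 / 2)) (k : Fin 2) {z : ℂ} (hz : ‖z - bb k‖ = r) :
    (chi (-1) γ k z + EE r γ z).re = (V r (-1) γ k (bb k)).re := by
  have h := bdry_rel (σ := -1) hr hr' (by simp) hγ k hz
  unfold EE
  rw [h]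
  simp

lemma H_bdry {r γ : ℝ} (hr : 0 < r) (hr' : r ≤ 1 / 10 ^ 8)
    (hγ : γ ∈ Icc (1 / 4 : ℝ) (1 / 2)) (k : Fin 2) {z : ℂ} (hz : ‖z - bb k‖ = r) :
    (chi 1 γ k z + HH r γ z).im = 0 := by
  have h := bdry_rel (σ := 1) hr hr' (by simp) hγ k hz
  have h2 := V_center_real (σ := 1) hr hr' (by simp) hγ k
  unfold HH
  rw [h]
  simp [h2]

/-- The inner half of the total function. -/
noncomputable def Y (r : ℝ) (x : Fin 2 → ℂ → ℂ) (z : ℂ) : ℂ :=
  x 0 (A r 0 z) + x 1 (A r 1 z) + x 1 (A r 2 z)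

lemma S_outer {r σ M : ℝ} (hr : 0 < r) (hr' : r ≤ 1 / 10 ^ 8)
    {x : Fin 2 → ℂ → ℂ} (hx : Good M x) {z : ℂ} (hz : ‖z‖ = 100) :
    S r σ x z = Y r x z + σ * conj (Y r x z) := by
  have hzO : z ∈ Om r := by
    have h1 : (99 : ℝ) ≤ ‖z - 1‖ := by
      have := norm_sub_norm_le z 1
      rw [hz, norm_one] at this
      linarith
    have h2 : (99 : ℝ) ≤ ‖z + 1‖ := by
      have := norm_sub_norm_le z (-1)
      rw [hz, norm_neg, norm_one, sub_neg_eq_add] at this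
      linarith
    refine ⟨by rw [hz]; norm_num, by rw [hz]; linarith, by linarith, by linarith⟩
  have hz0 : z ≠ 0 := norm_pos_iff.mp (by rw [hz]; norm_num)
  have hzz : z * conj z = 10000 := by
    rw [Complex.mul_conj, Complex.normSq_eq_norm_sq, hz]; norm_num
  have hc0 : conj z ≠ 0 := by
    intro h; rw [h, mul_zero] at hzz; norm_num at hzz
  have h10 : (10000 : ℂ) - z ≠ 0 := by
    intro h
    have : z = 10000 := (sub_eq_zero.mp h).symm
    rw [this] at hz; norm_num at hz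
  have h11 : (10000 : ℂ) + z ≠ 0 := by
    intro h
    have : z = -10000 := by linear_combination h
    rw [this, norm_neg] at hz; norm_num at hz
  have e3 : A r 3 z = conj (A r 0 z) := by
    rw [← A_conj]
    show (r : ℂ) * z / 10000 = r / conj z
    rw [← hzz]; field_simp
  have e4 : A r 4 z = conj (A r 1 z) := by
    rw [← A_conj]
    show (r : ℂ) * z / (10000 - z) = r / (conj z - 1)
    have : (10000 : ℂ) - z = z * (conj z - 1) := by rw [← hzz]; ring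
    rw [this] at h10 ⊢
    have h12 : conj z - 1 ≠ 0 := right_ne_zero_of_mul h10
    field_simp
  have e5 : A r 5 z = conj (A r 2 z) := by
    rw [← A_conj]
    show -((r : ℂ) * z) / (10000 + z) = -r / (conj z + 1)
    have : (10000 : ℂ) + z = z * (conj z + 1) := by rw [← hzz]; ring
    rw [this] at h11 ⊢
    have h12 : conj z + 1 ≠ 0 := right_ne_zero_of_mul h11
    field_simp
  have m0 := (A_Om hr hr' 0 hzO).1
  have m1 := (A_Om hr hr' 1 hzO).1
  have m2 := (A_Om hr hr' 2 hzO).1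
  unfold S Y
  rw [Fin.sum_univ_six, e3, e4, e5]
  have s0 : sA σ 0 = 1 := rfl
  have s1 : sA σ 1 = 1 := rfl
  have s2 : sA σ 2 = 1 := rfl
  have s3 : sA σ 3 = σ := rfl
  have s4 : sA σ 4 = σ := rfl
  have s5 : sA σ 5 = σ := rfl
  have j0 : jA 0 = 0 := rfl
  have j1 : jA 1 = 1 := rfl
  have j2 : jA 2 = 1 := rfl
  have j3 : jA 3 = 0 := rfl
  have j4 : jA 4 = 1 := rfl
  have j5 : jA 5 = 1 := rfl
  rw [s0, s1, s2, s3, s4, s5, j0, j1, j2, j3, j4, j5, hx.csym 0 _ m0, hx.csym 1 _ m1,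
    hx.csym 1 _ m2]
  push_cast
  simp only [map_add]
  ring

lemma E_outer {r γ : ℝ} (hr : 0 < r) (hr' : r ≤ 1 / 10 ^ 8)
    (hγ : γ ∈ Icc (1 / 4 : ℝ) (1 / 2)) {z : ℂ} (hz : ‖z‖ = 100) : (EE r γ z).re = 0 := by
  unfold EE
  rw [S_outer hr hr' (xs_good hr hr' (by simp) hγ) hz]
  simp

lemma H_outer {r γ : ℝ} (hr : 0 < r) (hr' : r ≤ 1 / 10 ^ 8)
    (hγ : γ ∈ Icc (1 / 4 : ℝ) (1 / 2)) {z : ℂ} (hz : ‖z‖ = 100) : (HH r γ z).im = 0 := by
  unfold HH
  rw [S_outer hr hr' (xs_good hr hr' (by simp) hγ) hz]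
  simp

end Pool.Agent.Helper164.Build
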