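import Mathlib
import Pool.Agent.Helper164.Build2

open Complex Metric Set Filter Topology
open scoped ComplexConjugate

namespace Pool.Agent.Helper164.Build

open Pool.Agent.Helper164.Fixed

/-- outer factors -/
noncomputable def op (γ : ℝ) (z : ℂ) : ℂ := 1 + γ * z ^ 2 / 100000000
noncomputable def om (z : ℂ) : ℂ := 1 - z ^ 2 / 100000000

noncomputable def gg (r γ : ℝ) (z : ℂ) : ℂ := (op γ z / om z) ^ 2 * exp (HH r γ z - EE r γ z)

noncomputable def hh (r γ : ℝ) (z : ℂ) : ℂ :=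
  (z ^ 2 + γ) * op γ z / (z * (z ^ 2 - 1) * om z) * exp (HH r γ z)

noncomputable def Ft (r γ : ℝ) (z : ℂ) : ℂ :=
  (z ^ 2 + γ) * om z / (z * (z ^ 2 - 1) * op γ z) * exp (EE r γ z)

lemma op_ne {γ : ℝ} (hγ : γ ∈ Icc (1 / 4 : ℝ) (1 / 2)) {z : ℂ} (hz : ‖z‖ ≤ 200) : op γ z ≠ 0 :=
  (nice_three hγ hz).ne

lemma om_ne {z : ℂ} (hz : ‖z‖ ≤ 200) : om z ≠ 0 := (nice_four hz).ne

lemma hh_eq {r γ : ℝ} (hγ : γ ∈ Icc (1 / 4 : ℝ) (1 / 2)) {z : ℂ} (hz : ‖z‖ ≤ 200) :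
    hh r γ z = Ft r γ z * gg r γ z := by
  have h1 := op_ne hγ hz
  have h2 := om_ne hz
  unfold hh Ft gg
  have h3 : exp (HH r γ z) = exp (EE r γ z) * exp (HH r γ z - EE r γ z) := by
    rw [← Complex.exp_add]; congr 1; ring
  rw [h3]
  by_cases h4 : z * (z ^ 2 - 1) = 0
  · simp [h4]
  · obtain ⟨h5, h6⟩ := mul_ne_zero_iff.mp h4
    field_simp

lemma EE_diff {r γ : ℝ} (hr : 0 < r) (hr' : r ≤ 1 / 10 ^ 8)
    (hγ : γ ∈ Icc (1 / 4 : ℝ) (1 / 2)) : DifferentiableOn ℂ (EE r γ) (Om r) :=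
  S_diff hr hr' (xs_good hr hr' (by simp) hγ)

lemma HH_diff {r γ : ℝ} (hr : 0 < r) (hr' : r ≤ 1 / 10 ^ 8)
    (hγ : γ ∈ Icc (1 / 4 : ℝ) (1 / 2)) : DifferentiableOn ℂ (HH r γ) (Om r) :=
  S_diff hr hr' (xs_good hr hr' (by simp) hγ)

lemma EE_bound {r γ : ℝ} (hr : 0 < r) (hr' : r ≤ 1 / 10 ^ 8)
    (hγ : γ ∈ Icc (1 / 4 : ℝ) (1 / 2)) {z : ℂ} (hz : z ∈ Om r) : ‖EE r γ z‖ ≤ 4800 * r := by
  have := S_bound (σ := -1) hr hr' (by simp) (xs_good (σ := -1) hr hr' (by simp) hγ) hz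
  unfold EE
  linarith

lemma HH_bound {r γ : ℝ} (hr : 0 < r) (hr' : r ≤ 1 / 10 ^ 8)
    (hγ : γ ∈ Icc (1 / 4 : ℝ) (1 / 2)) {z : ℂ} (hz : z ∈ Om r) : ‖HH r γ z‖ ≤ 4800 * r := by
  have := S_bound (σ := 1) hr hr' (by simp) (xs_good (σ := 1) hr hr' (by simp) hγ) hz
  unfold HH
  linarith

lemma op_diff (γ : ℝ) : Differentiable ℂ (op γ) := by unfold op; fun_prop
lemma om_diff : Differentiable ℂ om := by unfold om; fun_prop

lemma gg_diff {r γ : ℝ} (hr : 0 < r) (hr' : r ≤ 1 / 10 ^ 8)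
    (hγ : γ ∈ Icc (1 / 4 : ℝ) (1 / 2)) : DifferentiableOn ℂ (gg r γ) (Om r) := by
  intro z hz
  apply DifferentiableAt.differentiableWithinAt
  have h1 := (EE_diff hr hr' hγ).differentiableAt ((Om_open r).mem_nhds hz)
  have h2 := (HH_diff hr hr' hγ).differentiableAt ((Om_open r).mem_nhds hz)
  unfold gg
  exact (((op_diff γ z).div (om_diff z) (om_ne hz.1.le)).pow 2).mul (h2.sub h1).cexp

lemma Om_ne {r : ℝ} (hr : 0 < r) {z : ℂ} (hz : z ∈ Om r) :
    z ≠ 0 ∧ z - 1 ≠ 0 ∧ z + 1 ≠ 0 :=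
  ⟨norm_pos_iff.mp (by linarith [hz.2.1]), norm_pos_iff.mp (by linarith [hz.2.2.1]),
    norm_pos_iff.mp (by linarith [hz.2.2.2])⟩

lemma hh_diff {r γ : ℝ} (hr : 0 < r) (hr' : r ≤ 1 / 10 ^ 8)
    (hγ : γ ∈ Icc (1 / 4 : ℝ) (1 / 2)) : DifferentiableOn ℂ (hh r γ) (Om r) := by
  intro z hz
  apply DifferentiableAt.differentiableWithinAt
  have h2 := (HH_diff hr hr' hγ).differentiableAt ((Om_open r).mem_nhds hz)
  obtain ⟨h3, h4, h5⟩ := Om_ne hr hz
  have h6 : z ^ 2 - 1 ≠ 0 := by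
    rw [show z ^ 2 - 1 = (z - 1) * (z + 1) by ring]; exact mul_ne_zero h4 h5
  unfold hh
  have h7 : DifferentiableAt ℂ (fun z : ℂ => z ^ 2 + (γ : ℂ)) z := by fun_prop
  have h8 : DifferentiableAt ℂ (fun z : ℂ => z * (z ^ 2 - 1)) z := by fun_prop
  exact (((h7.mul (op_diff γ z)).div (h8.mul (om_diff z))
    (mul_ne_zero (mul_ne_zero h3 h6) (om_ne hz.1.le)))).mul h2.cexp

lemma gg_near_one {r γ : ℝ} (hr : 0 < r) (hr' : r ≤ 1 / 10 ^ 8)
    (hγ : γ ∈ Icc (1 / 4 : ℝ) (1 / 2)) {z : ℂ} (hz : z ∈ Om r) : ‖gg r γ z - 1‖ ≤ 1 / 100 := by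
  have hom := om_ne hz.1.le
  obtain ⟨h1, h2⟩ := small_term hγ hz.1.le
  set q := op γ z / om z with hq
  have h3 : ‖q - 1‖ ≤ 1 / 1000 := by
    have e : q - 1 = (γ * z ^ 2 / 100000000 + z ^ 2 / 100000000) / om z := by
      rw [hq, div_sub_one hom]; unfold op om; ring
    rw [e, norm_div]
    have h4 : (1999 / 2000 : ℝ) ≤ ‖om z‖ := by
      have := norm_sub_norm_le (1 : ℂ) (z ^ 2 / 100000000)
      rw [norm_one] at this
      unfold om
      linarith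
    rw [div_le_iff₀ (by linarith)]
    have h5 := norm_add_le ((γ : ℂ) * z ^ 2 / 100000000) (z ^ 2 / 100000000)
    linarith
  have h4 : ‖q + 1‖ ≤ 3 := by
    have := norm_add_le (q - 1) 2
    have h : ‖(2 : ℂ)‖ = 2 := by simp
    rw [h, show q - 1 + 2 = q + 1 by ring] at this
    linarith
  have h5 : ‖q ^ 2 - 1‖ ≤ 3 / 1000 := by
    rw [show q ^ 2 - 1 = (q - 1) * (q + 1) by ring, norm_mul]
    nlinarith [norm_nonneg (q - 1), norm_nonneg (q + 1)]
  have h6 : ‖q ^ 2‖ ≤ 2 := by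
    have := norm_add_le (q ^ 2 - 1) 1
    rw [norm_one, sub_add_cancel] at this
    linarith
  have h7 : ‖HH r γ z - EE r γ z‖ ≤ 1 / 10000 := by
    have a1 := HH_bound hr hr' hγ hz
    have a2 := EE_bound hr hr' hγ hz
    have a3 := norm_sub_le (HH r γ z) (EE r γ z)
    have : 9600 * r ≤ 9600 * (1 / 10 ^ 8) := by linarith
    norm_num at this ⊢
    linarith
  have h8 : ‖exp (HH r γ z - EE r γ z) - 1‖ ≤ 2 / 10000 := by
    have := Complex.norm_exp_sub_one_le (x := HH r γ z - EE r γ z) (by linarith)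
    linarith
  have e : gg r γ z - 1 = q ^ 2 * (exp (HH r γ z - EE r γ z) - 1) + (q ^ 2 - 1) := by
    unfold gg; rw [← hq]; ring
  rw [e]
  refine (norm_add_le _ _).trans ?_
  rw [norm_mul]
  nlinarith [norm_nonneg (q ^ 2), norm_nonneg (exp (HH r γ z - EE r γ z) - 1)]

lemma gg_ne {r γ : ℝ} (hr : 0 < r) (hr' : r ≤ 1 / 10 ^ 8)
    (hγ : γ ∈ Icc (1 / 4 : ℝ) (1 / 2)) {z : ℂ} (hz : z ∈ Om r) : gg r γ z ≠ 0 := by
  intro h
  have := gg_near_one hr hr' hγ hz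
  rw [h, zero_sub, norm_neg, norm_one] at this
  norm_num at this

/-- signs -/
noncomputable def sgk (k : Fin 2) : ℝ := if k = 0 then -1 else 1

lemma denom_eq (k : Fin 2) (z : ℂ) : z * (z ^ 2 - 1) = sgk k * DD k z * (z - bb k) := by
  fin_cases k
  · simp [sgk, DD, bb]; ring
  · simp [sgk, DD, bb]; ring

lemma exp_chi_pos {γ : ℝ} (hγ : γ ∈ Icc (1 / 4 : ℝ) (1 / 2)) (k : Fin 2) {z : ℂ}
    (hz : z ∈ ball (bb k) (1 / 4)) :
    exp (chi 1 γ k z) = (z ^ 2 + γ) / DD k z * (op γ z / om z) := by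
  have hn : ‖z‖ ≤ 200 := (near_norm k hz).trans (by norm_num)
  unfold chi
  rw [Complex.exp_add, Complex.exp_sub, Complex.exp_log (nice_one k hγ hz).ne,
    Complex.exp_log (nice_DD k hz).ne, Complex.ofReal_one, one_mul, Complex.exp_sub,
    Complex.exp_log (nice_three hγ hn).ne, Complex.exp_log (nice_four hn).ne]
  rfl

lemma exp_chi_neg {γ : ℝ} (hγ : γ ∈ Icc (1 / 4 : ℝ) (1 / 2)) (k : Fin 2) {z : ℂ}
    (hz : z ∈ ball (bb k) (1 / 4)) :
    exp (chi (-1) γ k z) = (z ^ 2 + γ) / DD k z * (om z / op γ z) := by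
  have hn : ‖z‖ ≤ 200 := (near_norm k hz).trans (by norm_num)
  unfold chi
  have e : ((-1 : ℝ) : ℂ) * (log (1 + γ * z ^ 2 / 100000000) - log (1 - z ^ 2 / 100000000))
      = log (1 - z ^ 2 / 100000000) - log (1 + γ * z ^ 2 / 100000000) := by
    push_cast; ring
  rw [e, Complex.exp_add, Complex.exp_sub, Complex.exp_log (nice_one k hγ hz).ne,
    Complex.exp_log (nice_DD k hz).ne, Complex.exp_sub,
    Complex.exp_log (nice_three hγ hn).ne, Complex.exp_log (nice_four hn).ne]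
  rfl

lemma exp_of_im_zero {w : ℂ} (h : w.im = 0) : exp w = (‖exp w‖ : ℝ) := by
  rw [Complex.norm_exp]
  have : w = (w.re : ℂ) := by
    apply Complex.ext <;> simp [h]
  conv_lhs => rw [this]
  rw [Complex.ofReal_exp]

/-- The boundary relation on the small circles around `0` and `1`. -/
lemma bdry_small {r γ : ℝ} (hr : 0 < r) (hr' : r ≤ 1 / 10 ^ 8)
    (hγ : γ ∈ Icc (1 / 4 : ℝ) (1 / 2)) (k : Fin 2) :
    ∃ L : ℝ, 0 < L ∧ ∀ z : ℂ, ‖z - bb k‖ = r →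
      hh r γ z * (z - bb k) = ((sgk k * L * ‖gg r γ z‖ : ℝ) : ℂ) := by
  refine ⟨Real.exp (V r (-1) γ k (bb k)).re, Real.exp_pos _, fun z hz => ?_⟩
  have hzb : z ∈ ball (bb k) (1 / 4) := by
    rw [mem_ball_iff_norm, hz]; linarith
  have hn : ‖z‖ ≤ 200 := (near_norm k hzb).trans (by norm_num)
  have hne : z - bb k ≠ 0 := norm_pos_iff.mp (by rw [hz]; exact hr)
  have hD := (nice_DD k hzb).ne
  have hop := op_ne hγ hn
  have hom := om_ne hn
  have hs : (sgk k : ℂ) ≠ 0 := by fin_cases k <;> simp [sgk]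
  have hs2 : (sgk k : ℂ) * sgk k = 1 := by fin_cases k <;> simp [sgk]
  have hs3 : |sgk k| = 1 := by fin_cases k <;> simp [sgk]
  have e1 : hh r γ z * (z - bb k) = sgk k * exp (chi 1 γ k z + HH r γ z) := by
    unfold hh
    rw [denom_eq k z, Complex.exp_add, exp_chi_pos hγ k hzb]
    field_simp
    linear_combination -(z ^ 2 + (γ : ℂ)) * hs2
  have e2 : Ft r γ z * (z - bb k) = sgk k * exp (chi (-1) γ k z + EE r γ z) := by
    unfold Ft
    rw [denom_eq k z, Complex.exp_add, exp_chi_neg hγ k hzb]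
    field_simp
    linear_combination -(z ^ 2 + (γ : ℂ)) * hs2
  have e3 : ‖Ft r γ z‖ * r = Real.exp (V r (-1) γ k (bb k)).re := by
    have := congrArg norm e2
    rw [norm_mul, norm_mul, hz, Complex.norm_real, Real.norm_eq_abs, hs3, one_mul,
      Complex.norm_exp, E_bdry hr hr' hγ k hz] at this
    exact this
  have e4 := exp_of_im_zero (H_bdry hr hr' hγ k hz)
  have e5 : ‖exp (chi 1 γ k z + HH r γ z)‖ = Real.exp (V r (-1) γ k (bb k)).re * ‖gg r γ z‖ := by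
    have := congrArg norm e1
    rw [norm_mul, norm_mul, hz, Complex.norm_real, Real.norm_eq_abs, hs3, one_mul,
      hh_eq hγ hn, norm_mul] at this
    rw [← this, ← e3]; ring
  rw [e1, e4, e5]
  push_cast
  ring

/-- The boundary relation on the outer circle. -/
lemma bdry_outer {r γ : ℝ} (hr : 0 < r) (hr' : r ≤ 1 / 10 ^ 8)
    (hγ : γ ∈ Icc (1 / 4 : ℝ) (1 / 2)) {z : ℂ} (hz : ‖z‖ = 100) :
    hh r γ z * z = ((‖gg r γ z‖ : ℝ) : ℂ) := by
  have hn : ‖z‖ ≤ 200 := by rw [hz]; norm_num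
  have hz0 : z ≠ 0 := norm_pos_iff.mp (by rw [hz]; norm_num)
  have hop := op_ne hγ hn
  have hom := om_ne hn
  have hzz : z * conj z = 10000 := by
    rw [Complex.mul_conj, Complex.normSq_eq_norm_sq, hz]; norm_num
  have h8 : (starRingEnd ℂ) (100000000 : ℂ) = 100000000 := map_ofNat _ _
  have f1 : z ^ 2 + (γ : ℂ) = z ^ 2 * conj (op γ z) := by
    unfold op
    simp only [map_add, map_mul, map_pow, map_div₀, map_one, Complex.conj_ofReal, h8]
    have : z ^ 2 * (conj z) ^ 2 = 100000000 := by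
      rw [← mul_pow, hzz]; norm_num
    linear_combination -(γ : ℂ) / 100000000 * this
  have f2 : z ^ 2 - 1 = z ^ 2 * conj (om z) := by
    unfold om
    simp only [map_sub, map_pow, map_div₀, map_one, h8]
    have : z ^ 2 * (conj z) ^ 2 = 100000000 := by
      rw [← mul_pow, hzz]; norm_num
    linear_combination (1 : ℂ) / 100000000 * this
  have hcop : conj (op γ z) ≠ 0 := (map_ne_zero _).mpr hop
  have hcom : conj (om z) ≠ 0 := (map_ne_zero _).mpr hom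
  have e1 : hh r γ z * z = ((‖op γ z‖ ^ 2 / ‖om z‖ ^ 2 : ℝ) : ℂ) * exp (HH r γ z) := by
    unfold hh
    rw [f1, f2]
    have g1 : ((‖op γ z‖ ^ 2 / ‖om z‖ ^ 2 : ℝ) : ℂ) = (op γ z * conj (op γ z)) /
        (om z * conj (om z)) := by
      rw [Complex.mul_conj, Complex.mul_conj, Complex.normSq_eq_norm_sq,
        Complex.normSq_eq_norm_sq]
      push_cast; rfl
    rw [g1]
    field_simp
  have e2 : ‖Ft r γ z‖ = 1 / 100 := by
    unfold Ft
    rw [f1, f2]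
    rw [norm_mul, Complex.norm_exp, E_outer hr hr' hγ hz, Real.exp_zero, mul_one]
    simp only [norm_div, norm_mul, norm_pow, RCLike.norm_conj, hz]
    have a1 := norm_pos_iff.mpr hop
    have a2 := norm_pos_iff.mpr hom
    field_simp
  have e3 := exp_of_im_zero (H_outer hr hr' hγ hz)
  have e4 : ‖op γ z‖ ^ 2 / ‖om z‖ ^ 2 * ‖exp (HH r γ z)‖ = ‖gg r γ z‖ := by
    have := congrArg norm e1
    rw [norm_mul, hh_eq hγ hn, norm_mul, e2, hz, norm_mul, Complex.norm_real,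
      Real.norm_of_nonneg (by positivity)] at this
    rw [← this]; ring
  rw [e1, e3]
  rw [← Complex.ofReal_mul, e4]

end Pool.Agent.Helper164.Build
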