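import Mathlib
import Pool.Agent.Helper164.Build3

open Complex Metric Set Filter Topology MeasureTheory
open scoped ComplexConjugate Real

namespace Pool.Agent.Helper164.Build

open Pool.Agent.Helper164.Fixed

lemma A_neg0 (r : ℝ) (z : ℂ) : A r 0 (-z) = -A r 0 z := by
  show (r : ℂ) / (-z) = -(r / z)
  rw [div_neg]
lemma A_neg1 (r : ℝ) (z : ℂ) : A r 1 (-z) = A r 2 z := by
  show (r : ℂ) / (-z - 1) = -r / (z + 1)
  rw [show -z - 1 = -(z + 1) by ring, div_neg, neg_div]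
lemma A_neg2 (r : ℝ) (z : ℂ) : A r 2 (-z) = A r 1 z := by
  show -(r : ℂ) / (-z + 1) = r / (z - 1)
  rw [show -z + 1 = -(z - 1) by ring, neg_div_neg_eq]
lemma A_neg3 (r : ℝ) (z : ℂ) : A r 3 (-z) = -A r 3 z := by
  show (r : ℂ) * (-z) / 10000 = -(r * z / 10000)
  ring
lemma A_neg4 (r : ℝ) (z : ℂ) : A r 4 (-z) = A r 5 z := by
  show (r : ℂ) * (-z) / (10000 - (-z)) = -(r * z) / (10000 + z)
  rw [sub_neg_eq_add, mul_neg]
lemma A_neg5 (r : ℝ) (z : ℂ) : A r 5 (-z) = A r 4 z := by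
  show -((r : ℂ) * (-z)) / (10000 + (-z)) = r * z / (10000 - z)
  rw [mul_neg, neg_neg, ← sub_eq_add_neg]

lemma U0_eq (r σ : ℝ) (t : Fin 2 → ℂ → ℂ) (z : ℂ) :
    U r σ t 0 z = t 1 (A r 1 z) + t 1 (A r 2 z) + σ * t 0 (A r 3 z) + σ * t 1 (A r 4 z)
      + σ * t 1 (A r 5 z) := by
  unfold U
  rw [Fin.sum_univ_five]
  have i0 : (kk 0).succAbove (0 : Fin 5) = 1 := by decide
  have i1 : (kk 0).succAbove (1 : Fin 5) = 2 := by decide
  have i2 : (kk 0).succAbove (2 : Fin 5) = 3 := by decide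
  have i3 : (kk 0).succAbove (3 : Fin 5) = 4 := by decide
  have i4 : (kk 0).succAbove (4 : Fin 5) = 5 := by decide
  rw [i0, i1, i2, i3, i4]
  have s1 : sA σ 1 = 1 := rfl
  have s2 : sA σ 2 = 1 := rfl
  have s3 : sA σ 3 = σ := rfl
  have s4 : sA σ 4 = σ := rfl
  have s5 : sA σ 5 = σ := rfl
  have j1 : jA 1 = 1 := rfl
  have j2 : jA 2 = 1 := rfl
  have j3 : jA 3 = 0 := rfl
  have j4 : jA 4 = 1 := rfl
  have j5 : jA 5 = 1 := rfl
  rw [s1, s2, s3, s4, s5, j1, j2, j3, j4, j5]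
  push_cast
  ring

lemma T_even {r σ γ : ℝ} (hr : 0 < r) (hr' : r ≤ 1 / 10 ^ 8) (m : ℕ) :
    ∀ η ∈ ball (0 : ℂ) 2, T (cc σ) jj (ww r) (aa r σ γ) m 0 (-η)
      = T (cc σ) jj (ww r) (aa r σ γ) m 0 η := by
  induction m with
  | zero =>
    intro η _
    show aa r σ γ 0 (-η) = aa r σ γ 0 η
    unfold aa chi DD bb
    simp
  | succ m ih =>
    intro η hη
    show Lop (cc σ) jj (ww r) (T (cc σ) jj (ww r) (aa r σ γ) m) 0 (-η)
      = Lop (cc σ) jj (ww r) (T (cc σ) jj (ww r) (aa r σ γ) m) 0 η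
    rw [Lop_eq, Lop_eq]
    have hb : bb 0 = 0 := by simp [bb]
    rw [hb, zero_add, zero_add, mul_neg]
    have hA3 : A r 3 (r * η) ∈ ball (0 : ℂ) 2 := by
      have h1 := near_mem hr hr' 0 hη
      rw [hb, zero_add] at h1
      have h2 := near_ball hr hr' 0 2 (z := (r : ℂ) * η) (by rw [hb]; exact h1)
      have i2 : (kk 0).succAbove (2 : Fin 5) = 3 := by decide
      rwa [i2] at h2
    rw [U0_eq r σ _ (-(r * η)), U0_eq r σ _ (r * η), A_neg1, A_neg2, A_neg3, A_neg4, A_neg5,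
      ih _ hA3]
    ring

lemma xs_even {r σ γ : ℝ} (hr : 0 < r) (hr' : r ≤ 1 / 10 ^ 8) {η : ℂ}
    (hη : η ∈ ball (0 : ℂ) 2) : xs r σ γ 0 (-η) = xs r σ γ 0 η := by
  unfold xs X
  exact tsum_congr (fun m => T_even hr hr' m η hη)

lemma S_even {r σ : ℝ} (hr : 0 < r) (hr' : r ≤ 1 / 10 ^ 8) {x : Fin 2 → ℂ → ℂ}
    (hx : ∀ η ∈ ball (0 : ℂ) 2, x 0 (-η) = x 0 η) {z : ℂ} (hz : z ∈ Om r) :
    S r σ x (-z) = S r σ x z := by
  unfold S
  rw [Fin.sum_univ_six, Fin.sum_univ_six]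
  have s0 : sA σ 0 = 1 := rfl
  have s1 : sA σ 1 = 1 := rfl
  have s2 : sA σ 2 = 1 := rfl
  have s3 : sA σ 3 = σ := rfl
  have s4 : sA σ 4 = σ := rfl
  have s5 : sA σ 5 = σ := rfl
  have j0 : jA 0 = 0 := rfl
  have j1 : jA 1 = 1 := rfl
  have j2 : jA 2 = 1 := rfl
  have j3 : jA 3 = 0 := rfl
  have j4 : jA 4 = 1 := rfl
  have j5 : jA 5 = 1 := rfl
  rw [s0, s1, s2, s3, s4, s5, j0, j1, j2, j3, j4, j5, A_neg0, A_neg1, A_neg2, A_neg3, A_neg4,
    A_neg5, hx _ (A_Om hr hr' 0 hz).1, hx _ (A_Om hr hr' 3 hz).1]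
  ring

lemma EE_even {r γ : ℝ} (hr : 0 < r) (hr' : r ≤ 1 / 10 ^ 8) {z : ℂ} (hz : z ∈ Om r) :
    EE r γ (-z) = EE r γ z :=
  S_even hr hr' (fun _ hη => xs_even hr hr' hη) hz

lemma HH_even {r γ : ℝ} (hr : 0 < r) (hr' : r ≤ 1 / 10 ^ 8) {z : ℂ} (hz : z ∈ Om r) :
    HH r γ (-z) = HH r γ z :=
  S_even hr hr' (fun _ hη => xs_even hr hr' hη) hz

lemma gg_even {r γ : ℝ} (hr : 0 < r) (hr' : r ≤ 1 / 10 ^ 8) {z : ℂ} (hz : z ∈ Om r) :
    gg r γ (-z) = gg r γ z := by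
  unfold gg op om
  rw [EE_even hr hr' hz, HH_even hr hr' hz, neg_sq]

lemma hh_odd {r γ : ℝ} (hr : 0 < r) (hr' : r ≤ 1 / 10 ^ 8) {z : ℂ} (hz : z ∈ Om r) :
    hh r γ (-z) = -hh r γ z := by
  unfold hh op om
  rw [HH_even hr hr' hz, neg_sq, neg_mul, neg_mul, div_neg, neg_mul]

lemma circle_sub_Om {r : ℝ} (hr : 0 < r) (hr' : r ≤ 1 / 10 ^ 8) {z : ℂ} {ρ : ℝ}
    (h1 : r / 2 < ρ) (h2 : ρ ≤ 1 / 4) (hz : ‖z - 1‖ = ρ) : z ∈ Om r := by
  have h3 : (3 / 4 : ℝ) ≤ ‖z‖ := by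
    have := norm_sub_norm_le (1 : ℂ) (1 - z)
    rw [norm_one, norm_sub_rev 1 z, sub_sub_cancel] at this
    linarith
  have h00 : ‖z‖ ≤ 5 / 4 := by
    have := norm_add_le (z - 1) 1
    rw [sub_add_cancel, norm_one] at this
    linarith
  have h4 : (3 / 4 : ℝ) ≤ ‖z + 1‖ := by
    have := norm_sub_norm_le (2 : ℂ) (1 - z)
    have h : ‖(2 : ℂ)‖ = 2 := by simp
    rw [h, norm_sub_rev 1 z, show (2 : ℂ) - (1 - z) = z + 1 by ring] at this
    linarith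
  exact ⟨by linarith, by linarith, by rw [hz]; exact h1, by linarith⟩

lemma circle_sub_Om0 {r : ℝ} (hr : 0 < r) (hr' : r ≤ 1 / 10 ^ 8) {z : ℂ} {ρ : ℝ}
    (h1 : r / 2 < ρ) (h2 : ρ ≤ 1 / 4) (hz : ‖z‖ = ρ) : z ∈ Om r := by
  have h3 : (3 / 4 : ℝ) ≤ ‖z - 1‖ := by
    have := norm_sub_norm_le (1 : ℂ) z
    rw [norm_one, norm_sub_rev] at this
    linarith
  have h4 : (3 / 4 : ℝ) ≤ ‖z + 1‖ := by
    have := norm_sub_norm_le (1 : ℂ) (-z)
    rw [norm_one, norm_neg, sub_neg_eq_add, add_comm] at this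
    linarith
  exact ⟨by linarith, by linarith, by linarith, by linarith⟩

lemma neg_Om {r : ℝ} {z : ℂ} (hz : z ∈ Om r) : -z ∈ Om r := by
  obtain ⟨h1, h2, h3, h4⟩ := hz
  refine ⟨by rwa [norm_neg], by rwa [norm_neg], ?_, ?_⟩
  · rw [show -z - 1 = -(z + 1) by ring, norm_neg]; exact h4
  · rw [show -z + 1 = -(z - 1) by ring, norm_neg]; exact h3

lemma circle_sub_Om' {r : ℝ} (hr : 0 < r) (hr' : r ≤ 1 / 10 ^ 8) {z : ℂ} {ρ : ℝ}
    (h1 : r / 2 < ρ) (h2 : ρ ≤ 1 / 4) (hz : ‖z + 1‖ = ρ) : z ∈ Om r := by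
  have h := circle_sub_Om hr hr' (z := -z) h1 h2 (by
    rw [show -z - 1 = -(z + 1) by ring, norm_neg]; exact hz)
  have := neg_Om h
  rwa [neg_neg] at this

/-- The boundary relation on the small circle around `-1`. -/
lemma bdry_neg {r γ : ℝ} (hr : 0 < r) (hr' : r ≤ 1 / 10 ^ 8)
    (hγ : γ ∈ Icc (1 / 4 : ℝ) (1 / 2)) :
    ∃ L : ℝ, 0 < L ∧ ∀ z : ℂ, ‖z + 1‖ = r →
      hh r γ z * (z + 1) = ((L * ‖gg r γ z‖ : ℝ) : ℂ) := by
  obtain ⟨L, hL, h⟩ := bdry_small hr hr' hγ 1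
  refine ⟨L, hL, fun z hz => ?_⟩
  have hz' : ‖-z - 1‖ = r := by
    rw [show -z - 1 = -(z + 1) by ring, norm_neg]; exact hz
  have hO : z ∈ Om r := circle_sub_Om' hr hr' (by linarith) (by linarith) hz
  have hb : bb 1 = 1 := by simp [bb]
  have hs : sgk 1 = 1 := by simp [sgk]
  have := h (-z) (by rw [hb]; exact hz')
  rw [hb, hs, one_mul, hh_odd hr hr' hO, gg_even hr hr' hO] at this
  rw [← this]; ring

lemma S_cont {r σ : ℝ} (hr : 0 < r) (hr' : r ≤ 1 / 10 ^ 8) (hσ : |σ| = 1) {z : ℂ}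
    (hz : z ∈ Om r) :
    ContinuousOn (fun γ => S r σ (xs r σ γ) z) (Icc (1 / 4 : ℝ) (1 / 2)) := by
  unfold S
  apply continuousOn_finsetSum
  intro i _
  exact continuousOn_const.mul (xs_cont hr hr' hσ _ (A_Om hr hr' i hz).1)

lemma gg_cont {r : ℝ} (hr : 0 < r) (hr' : r ≤ 1 / 10 ^ 8) {z : ℂ} (hz : z ∈ Om r) :
    ContinuousOn (fun γ => gg r γ z) (Icc (1 / 4 : ℝ) (1 / 2)) := by
  unfold gg op EE HH
  have h1 := S_cont (σ := 1) hr hr' (by simp) hz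
  have h2 := S_cont (σ := -1) hr hr' (by simp) hz
  have h3 : Continuous (fun γ : ℝ => ((1 + (γ : ℂ) * z ^ 2 / 100000000) / om z) ^ 2) := by
    fun_prop
  exact h3.continuousOn.mul (h1.sub h2).cexp

/-- The period function. -/
noncomputable def JJ (r γ : ℝ) : ℂ := (2 * π * I : ℂ)⁻¹ * ∮ z in C(1, 1 / 8), gg r γ z

lemma JJ_cont {r : ℝ} (hr : 0 < r) (hr' : r ≤ 1 / 10 ^ 8) :
    ContinuousOn (JJ r) (Icc (1 / 4 : ℝ) (1 / 2)) := by
  unfold JJ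
  apply continuousOn_const.mul
  unfold circleIntegral
  have hO : ∀ θ : ℝ, circleMap 1 (1 / 8) θ ∈ Om r := fun θ =>
    circle_sub_Om hr hr' (ρ := 1 / 8) (by linarith) (by norm_num) (by
      have := circleMap_mem_sphere (1 : ℂ) (by norm_num : (0 : ℝ) ≤ 1 / 8) θ
      rwa [mem_sphere_iff_norm] at this)
  intro γ₀ hγ₀
  apply intervalIntegral.continuousWithinAt_of_dominated_interval (bound := fun _ => 2)
  · apply eventually_nhdsWithin_of_forall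
    intro γ hγ
    have h1 : Continuous (fun θ : ℝ => gg r γ (circleMap 1 (1 / 8) θ)) :=
      (gg_diff hr hr' hγ).continuousOn.comp_continuous (continuous_circleMap _ _) hO
    have h2 : Continuous (fun θ : ℝ => deriv (circleMap 1 (1 / 8)) θ) := by
      have : (fun θ : ℝ => deriv (circleMap 1 (1 / 8)) θ)
          = fun θ => circleMap 0 (1 / 8) θ * I := by
        funext θ; exact deriv_circleMap 1 (1 / 8) θ
      rw [this]
      exact (continuous_circleMap 0 _).mul continuous_const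
    exact (h2.smul h1).aestronglyMeasurable
  · apply eventually_nhdsWithin_of_forall
    intro γ hγ
    refine Eventually.of_forall (fun θ _ => ?_)
    rw [norm_smul, deriv_circleMap, norm_mul, norm_circleMap_zero, Complex.norm_I, mul_one]
    have h3 := gg_near_one hr hr' hγ (hO θ)
    have h4 := norm_add_le (gg r γ (circleMap 1 (1 / 8) θ) - 1) 1
    rw [sub_add_cancel, norm_one] at h4
    rw [abs_of_pos (by norm_num : (0 : ℝ) < 1 / 8)]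
    linarith
  · exact intervalIntegrable_const
  · refine Eventually.of_forall (fun θ _ => ?_)
    have h5 : ContinuousOn (fun γ => deriv (circleMap 1 (1 / 8)) θ *
        gg r γ (circleMap 1 (1 / 8) θ)) (Icc (1 / 4 : ℝ) (1 / 2)) :=
      continuousOn_const.mul (gg_cont hr hr' (hO θ))
    exact h5 γ₀ hγ₀

end Pool.Agent.Helper164.Build
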