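import Mathlib
import Pool.Agent.Helper164.Build4

open Complex Metric Set Filter Topology MeasureTheory
open scoped ComplexConjugate Real

namespace Pool.Agent.Helper164.Build

open Pool.Agent.Helper164.Fixed

lemma second_order {f : ℂ → ℂ} {c : ℂ} {R M : ℝ} (hR : 0 < R)
    (hf : DifferentiableOn ℂ f (ball c R)) (hM : ∀ z ∈ ball c R, ‖f z - f c‖ ≤ M) {z : ℂ}
    (hz : z ∈ ball c R) :
    ‖f z - f c - (z - c) * deriv f c‖ ≤ 2 * M / R ^ 2 * ‖z - c‖ ^ 2 := by
  have hc : c ∈ ball c R := mem_ball_self hR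
  have hd : DifferentiableOn ℂ (dslope f c) (ball c R) :=
    (Complex.differentiableOn_dslope (isOpen_ball.mem_nhds hc)).mpr hf
  have h1 : ∀ w ∈ ball c R, ‖dslope f c w‖ ≤ M / R := by
    intro w hw
    exact Complex.norm_dslope_le_div_of_mapsTo_ball (c := c) (R₁ := R) (R₂ := M) hf (by
      intro ξ hξ
      rw [mem_closedBall_iff_norm]
      exact hM ξ hξ) hw
  have h2 := Complex.dist_le_div_mul_dist_of_mapsTo_ball (c := c) (R₁ := R) (R₂ := 2 * M / R)
    hd (by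
      intro ξ hξ
      rw [mem_closedBall_iff_norm]
      have h3 := h1 ξ hξ
      have h4 := h1 c hc
      refine (norm_sub_le _ _).trans ?_
      calc _ ≤ M / R + M / R := by linarith
        _ = 2 * M / R := by ring) hz
  rw [dist_eq_norm, dist_eq_norm] at h2
  have e : f z - f c - (z - c) * deriv f c = (z - c) * (dslope f c z - dslope f c c) := by
    rw [mul_sub, dslope_same, ← smul_eq_mul (a := z - c) (b := dslope f c z), sub_smul_dslope]
  rw [e, norm_mul]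
  calc ‖z - c‖ * ‖dslope f c z - dslope f c c‖
      ≤ ‖z - c‖ * (2 * M / R / R * ‖z - c‖) := by gcongr
    _ = 2 * M / R ^ 2 * ‖z - c‖ ^ 2 := by
        field_simp

lemma conj_Om {r : ℝ} {z : ℂ} (hz : z ∈ Om r) : conj z ∈ Om r := by
  obtain ⟨h1, h2, h3, h4⟩ := hz
  refine ⟨by rwa [Complex.norm_conj], by rwa [Complex.norm_conj], ?_, ?_⟩
  · rw [show conj z - 1 = conj (z - 1) by simp, Complex.norm_conj]; exact h3
  · rw [show conj z + 1 = conj (z + 1) by simp, Complex.norm_conj]; exact h4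

lemma gg_conj {r γ : ℝ} (hr : 0 < r) (hr' : r ≤ 1 / 10 ^ 8)
    (hγ : γ ∈ Icc (1 / 4 : ℝ) (1 / 2)) {z : ℂ} (hz : z ∈ Om r) :
    gg r γ (conj z) = conj (gg r γ z) := by
  have h8 : (starRingEnd ℂ) (100000000 : ℂ) = 100000000 := map_ofNat _ _
  have h1 := S_conj (σ := 1) hr hr' (xs_good (σ := 1) hr hr' (by simp) hγ) hz
  have h2 := S_conj (σ := -1) hr hr' (xs_good (σ := -1) hr hr' (by simp) hγ) hz
  unfold gg op om HH EE
  rw [h1, h2, map_mul, map_pow, map_div₀, ← Complex.exp_conj]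
  simp only [map_add, map_sub, map_mul, map_pow, map_div₀, map_one, Complex.conj_ofReal, h8]

lemma JJ_eq {r γ : ℝ} : JJ r γ = (2 * π : ℂ)⁻¹ *
    ∫ θ in (0 : ℝ)..(2 * π), circleMap 0 (1 / 8) θ * gg r γ (circleMap 1 (1 / 8) θ) := by
  unfold JJ circleIntegral
  have : ∀ θ : ℝ, deriv (circleMap 1 (1 / 8)) θ • gg r γ (circleMap 1 (1 / 8) θ)
      = I * (circleMap 0 (1 / 8) θ * gg r γ (circleMap 1 (1 / 8) θ)) := by
    intro θ
    rw [deriv_circleMap, smul_eq_mul]; ring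
  simp_rw [this]
  rw [intervalIntegral.integral_const_mul]
  have hI : I ≠ 0 := I_ne_zero
  have hπ : (π : ℂ) ≠ 0 := by exact_mod_cast Real.pi_ne_zero
  field_simp

lemma circleMap_conj (c : ℝ) (ρ θ : ℝ) : conj (circleMap c ρ θ) = circleMap c ρ (-θ) := by
  simp only [circleMap, map_add, map_mul, Complex.conj_ofReal, ← Complex.exp_conj, Complex.conj_I]
  congr 3
  push_cast; ring

lemma JJ_real {r γ : ℝ} (hr : 0 < r) (hr' : r ≤ 1 / 10 ^ 8)
    (hγ : γ ∈ Icc (1 / 4 : ℝ) (1 / 2)) : (JJ r γ).im = 0 := by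
  have hO : ∀ θ : ℝ, circleMap 1 (1 / 8) θ ∈ Om r := fun θ =>
    circle_sub_Om hr hr' (ρ := 1 / 8) (by linarith) (by norm_num) (by
      have := circleMap_mem_sphere (1 : ℂ) (by norm_num : (0 : ℝ) ≤ 1 / 8) θ
      rwa [mem_sphere_iff_norm] at this)
  have h1 : conj (JJ r γ) = JJ r γ := by
    rw [JJ_eq, map_mul, map_inv₀, map_mul, Complex.conj_ofReal, map_ofNat]
    congr 1
    have h2 : conj (∫ θ in (0 : ℝ)..(2 * π), circleMap 0 (1 / 8) θ *
        gg r γ (circleMap 1 (1 / 8) θ)) = ∫ θ in (0 : ℝ)..(2 * π),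
        conj (circleMap 0 (1 / 8) θ * gg r γ (circleMap 1 (1 / 8) θ)) := by
      simp only [intervalIntegral.integral_of_le Real.two_pi_pos.le]
      exact integral_conj.symm
    rw [h2]
    have h3 : ∀ θ : ℝ, conj (circleMap 0 (1 / 8) θ * gg r γ (circleMap 1 (1 / 8) θ))
        = (fun θ => circleMap 0 (1 / 8) θ * gg r γ (circleMap 1 (1 / 8) θ)) (2 * π - θ) := by
      intro θ
      have e1 : ∀ c : ℂ, circleMap c (1 / 8) (2 * π - θ) = circleMap c (1 / 8) (-θ) := by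
        intro c
        have := periodic_circleMap c (1 / 8) (-θ)
        rw [← this]; congr 1; ring
      have e2 := circleMap_conj 0 (1 / 8) θ
      have e3 := circleMap_conj 1 (1 / 8) θ
      rw [Complex.ofReal_zero] at e2
      rw [Complex.ofReal_one] at e3
      show _ = circleMap 0 (1 / 8) (2 * π - θ) * gg r γ (circleMap 1 (1 / 8) (2 * π - θ))
      rw [map_mul, e1, e1, ← e2, ← e3, gg_conj hr hr' hγ (hO θ)]
    simp_rw [h3]
    have h5 := intervalIntegral.integral_comp_sub_left (a := 0) (b := 2 * π)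
      (fun θ => circleMap 0 (1 / 8) θ * gg r γ (circleMap 1 (1 / 8) θ)) (2 * π)
    rw [sub_self, sub_zero] at h5
    exact h5
  have h4 := congrArg Complex.im h1
  rw [Complex.conj_im] at h4
  linarith

/-- The combined local function at the hole around `1`. -/
noncomputable def ss (r γ : ℝ) (z : ℂ) : ℂ := V r 1 γ 1 z + V r (-1) γ 1 z

lemma V_diff {r σ γ : ℝ} (hr : 0 < r) (hr' : r ≤ 1 / 10 ^ 8) (hσ : |σ| = 1)
    (hγ : γ ∈ Icc (1 / 4 : ℝ) (1 / 2)) (k : Fin 2) :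
    DifferentiableOn ℂ (V r σ γ k) (ball (bb k) (1 / 4)) := by
  unfold V
  exact (chi_differentiable hγ k).add (U_diff hr hr' (xs_good hr hr' hσ hγ) k)

lemma V_bound {r σ γ : ℝ} (hr : 0 < r) (hr' : r ≤ 1 / 10 ^ 8) (hσ : |σ| = 1)
    (hγ : γ ∈ Icc (1 / 4 : ℝ) (1 / 2)) (k : Fin 2) {z : ℂ} (hz : z ∈ ball (bb k) (1 / 4)) :
    ‖V r σ γ k z‖ ≤ 25 := by
  unfold V
  have h1 := chi_norm hσ hγ k hz
  have h2 := U_bound (M := 800 * r) hr hr' hσ (by positivity) (xs_good hr hr' hσ hγ) k hz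
  have h3 := norm_add_le (chi σ γ k z) (U r σ (xs r σ γ) k z)
  have h4 : 5 * (800 * r * r) ≤ 1 := by nlinarith
  linarith

lemma deriv_ss {r γ : ℝ} (hr : 0 < r) (hr' : r ≤ 1 / 10 ^ 8)
    (hγ : γ ∈ Icc (1 / 4 : ℝ) (1 / 2)) :
    ‖deriv (ss r γ) 1 - ((4 / (1 + γ) - 3 : ℝ) : ℂ)‖ ≤ 1 / 1000 := by
  have hb1 : bb 1 = 1 := by simp [bb]
  have hm : (1 : ℂ) ∈ ball (1 : ℂ) (1 / 4) := mem_ball_self (by norm_num)
  have hm' : (1 : ℂ) ∈ ball (bb 1) (1 / 4) := by rw [hb1]; exact hm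
  have hγ0 : 0 < 1 + γ := by linarith [hγ.1]
  have hγc : (1 : ℂ) + γ ≠ 0 := by exact_mod_cast hγ0.ne'
  -- derivative of the logarithmic part
  have d1 : HasDerivAt (fun z => chi 1 γ 1 z + chi (-1) γ 1 z) (4 / (1 + γ) - 3 : ℂ) 1 := by
    have e : (fun z => chi 1 γ 1 z + chi (-1) γ 1 z) =
        fun z => 2 * (log (z ^ 2 + γ) - log (z * (z + 1))) := by
      funext z
      unfold chi DD
      simp only [show (1 : Fin 2) ≠ 0 by decide, if_false]
      push_cast
      ring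
    rw [e]
    have a1 : HasDerivAt (fun z : ℂ => z ^ 2 + (γ : ℂ)) (2 * 1) 1 := by
      have := ((hasDerivAt_id (1 : ℂ)).pow 2).add_const (γ : ℂ)
      simpa using this
    have a2 : HasDerivAt (fun z : ℂ => z * (z + 1)) 3 1 := by
      have := (hasDerivAt_id (1 : ℂ)).mul ((hasDerivAt_id (1 : ℂ)).add_const (1 : ℂ))
      exact this.congr_deriv (by simp; norm_num)
    have n1 : ((1 : ℂ) ^ 2 + γ) ∈ slitPlane := (nice_one 1 hγ hm').slit
    have n2 : ((1 : ℂ) * (1 + 1)) ∈ slitPlane := by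
      left; norm_num
    have := ((a1.clog n1).sub (a2.clog n2)).const_mul 2
    refine this.congr_deriv ?_
    rw [one_pow]
    field_simp
    ring
  -- derivative of the remainders
  have d2 : ∀ σ : ℝ, |σ| = 1 → DifferentiableAt ℂ (U r σ (xs r σ γ) 1) 1 ∧
      ‖deriv (U r σ (xs r σ γ) 1) 1‖ ≤ 1 / 2000 := by
    intro σ hσ
    have hd := U_diff (σ := σ) hr hr' (xs_good hr hr' hσ hγ) 1
    rw [hb1] at hd
    refine ⟨hd.differentiableAt (isOpen_ball.mem_nhds hm), ?_⟩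
    have h1 := Complex.norm_deriv_le_of_forall_mem_sphere_norm_le (c := (1 : ℂ)) (R := 1 / 8)
      (C := 5 * (800 * r * r)) (f := U r σ (xs r σ γ) 1) (by norm_num)
      (hd.diffContOnCl_ball (closedBall_subset_ball (by norm_num))) (by
        intro z hz
        refine U_bound (M := 800 * r) hr hr' hσ (by positivity) (xs_good hr hr' hσ hγ) 1 ?_
        rw [hb1, mem_ball]
        rw [mem_sphere] at hz
        rw [hz]; norm_num)
    refine h1.trans ?_
    rw [div_le_iff₀ (by norm_num)]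
    nlinarith
  obtain ⟨p1, p2⟩ := d2 1 (by simp)
  obtain ⟨m1, m2⟩ := d2 (-1) (by simp)
  have hd : HasDerivAt (ss r γ) ((4 / (1 + γ) - 3 : ℂ) + (deriv (U r 1 (xs r 1 γ) 1) 1 +
      deriv (U r (-1) (xs r (-1) γ) 1) 1)) 1 := by
    have h := d1.add (p1.hasDerivAt.add m1.hasDerivAt)
    have e : ss r γ = ((fun z => chi 1 γ 1 z + chi (-1) γ 1 z) +
        (U r 1 (xs r 1 γ) 1 + U r (-1) (xs r (-1) γ) 1)) := by
      funext z
      simp only [ss, V, Pi.add_apply]
      ring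
    rw [e]
    exact h
  rw [hd.deriv]
  push_cast
  rw [add_sub_cancel_left]
  exact (norm_add_le _ _).trans (by linarith)

end Pool.Agent.Helper164.Build
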