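import Mathlib
import Pool.Agent.Helper164.Build5

open Complex Metric Set Filter Topology MeasureTheory
open scoped ComplexConjugate Real

namespace Pool.Agent.Helper164.Build

open Pool.Agent.Helper164.Fixed

lemma abstract_res {a g : ℂ → ℂ} {c d : ℂ} {R ε : ℝ} (hR : 0 < R)
    (ha : DifferentiableOn ℂ a (closedBall c R)) (hg : ContinuousOn g (sphere c R))
    (hE : ∀ z ∈ sphere c R, ‖g z - a z - (z - c)⁻¹ * (d * a z)‖ ≤ ε) :
    ‖(2 * π * I : ℂ)⁻¹ * (∮ z in C(c, R), g z) - d * a c‖ ≤ R * ε := by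
  have hc : c ∈ ball c R := mem_ball_self hR
  have has : ContinuousOn a (sphere c R) := ha.continuousOn.mono sphere_subset_closedBall
  have hinv : ContinuousOn (fun z => (z - c)⁻¹ * (d * a z)) (sphere c R) := by
    apply ContinuousOn.mul
    · apply ContinuousOn.inv₀ (by fun_prop)
      intro z hz
      rw [mem_sphere_iff_norm] at hz
      exact norm_pos_iff.mp (by rw [hz]; exact hR)
    · exact continuousOn_const.mul has
  have h1 : (∮ z in C(c, R), a z) = 0 :=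
    circleIntegral_eq_zero_of_differentiable_on_off_countable hR.le countable_empty
      ha.continuousOn (fun z hz => ha.differentiableAt
        (mem_of_superset (isOpen_ball.mem_nhds hz.1) ball_subset_closedBall))
  have h2 : (∮ z in C(c, R), (z - c)⁻¹ * (d * a z)) = 2 * π * I * (d * a c) := by
    have := (ha.const_mul d).circleIntegral_sub_inv_smul hc
    simpa only [smul_eq_mul] using this
  have h3 := circleIntegral.norm_two_pi_i_inv_smul_integral_le_of_norm_le_const hR.le hE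
  have hga : CircleIntegrable (fun z => g z - a z) c R := (hg.sub has).circleIntegrable hR.le
  rw [circleIntegral.integral_sub hga
      (hinv.circleIntegrable hR.le), circleIntegral.integral_sub (hg.circleIntegrable hR.le)
      (has.circleIntegrable hR.le), h1, h2, sub_zero, smul_eq_mul, mul_sub,
    inv_mul_cancel_left₀ two_pi_I_ne_zero] at h3
  exact h3

/-- The regular amplitude. -/
noncomputable def am (r γ : ℝ) (z : ℂ) : ℂ :=
  (op γ z / om z) ^ 2 * exp (U r 1 (xs r 1 γ) 1 z - U r (-1) (xs r (-1) γ) 1 z)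

lemma ball_200 {z : ℂ} (hz : z ∈ ball (bb 1) (1 / 4)) : ‖z‖ ≤ 200 :=
  (near_norm 1 hz).trans (by norm_num)

lemma am_diff {r γ : ℝ} (hr : 0 < r) (hr' : r ≤ 1 / 10 ^ 8)
    (hγ : γ ∈ Icc (1 / 4 : ℝ) (1 / 2)) : DifferentiableOn ℂ (am r γ) (ball (bb 1) (1 / 4)) := by
  intro z hz
  apply DifferentiableAt.differentiableWithinAt
  have h1 := (U_diff (σ := 1) hr hr' (xs_good (σ := 1) hr hr' (by simp) hγ) 1).differentiableAt
    (isOpen_ball.mem_nhds hz)
  have h2 := (U_diff (σ := -1) hr hr' (xs_good (σ := -1) hr hr' (by simp) hγ) 1).differentiableAt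
    (isOpen_ball.mem_nhds hz)
  unfold am
  exact (((op_diff γ z).div (om_diff z) (om_ne (ball_200 hz))).pow 2).mul (h1.sub h2).cexp

lemma am_near {r γ : ℝ} (hr : 0 < r) (hr' : r ≤ 1 / 10 ^ 8)
    (hγ : γ ∈ Icc (1 / 4 : ℝ) (1 / 2)) {z : ℂ} (hz : z ∈ ball (bb 1) (1 / 4)) :
    ‖am r γ z - 1‖ ≤ 1 / 100 := by
  have hz2 := ball_200 hz
  have hom := om_ne hz2
  obtain ⟨h1, h2⟩ := small_term hγ hz2
  set q := op γ z / om z with hq
  have h3 : ‖q - 1‖ ≤ 1 / 1000 := by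
    have e : q - 1 = (γ * z ^ 2 / 100000000 + z ^ 2 / 100000000) / om z := by
      rw [hq, div_sub_one hom]; unfold op om; ring
    rw [e, norm_div]
    have h4 : (1999 / 2000 : ℝ) ≤ ‖om z‖ := by
      have := norm_sub_norm_le (1 : ℂ) (z ^ 2 / 100000000)
      rw [norm_one] at this
      unfold om
      linarith
    rw [div_le_iff₀ (by linarith)]
    have h5 := norm_add_le ((γ : ℂ) * z ^ 2 / 100000000) (z ^ 2 / 100000000)
    linarith
  have h4 : ‖q + 1‖ ≤ 3 := by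
    have := norm_add_le (q - 1) 2
    have h : ‖(2 : ℂ)‖ = 2 := by simp
    rw [h, show q - 1 + 2 = q + 1 by ring] at this
    linarith
  have h5 : ‖q ^ 2 - 1‖ ≤ 3 / 1000 := by
    rw [show q ^ 2 - 1 = (q - 1) * (q + 1) by ring, norm_mul]
    nlinarith [norm_nonneg (q - 1), norm_nonneg (q + 1)]
  have h6 : ‖q ^ 2‖ ≤ 2 := by
    have := norm_add_le (q ^ 2 - 1) 1
    rw [norm_one, sub_add_cancel] at this
    linarith
  set u := U r 1 (xs r 1 γ) 1 z - U r (-1) (xs r (-1) γ) 1 z with hu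
  have h7 : ‖u‖ ≤ 1 / 10000 := by
    have a1 := U_bound (M := 800 * r) (σ := 1) hr hr' (by simp) (by positivity)
      (xs_good (σ := 1) hr hr' (by simp) hγ) 1 hz
    have a2 := U_bound (M := 800 * r) (σ := -1) hr hr' (by simp) (by positivity)
      (xs_good (σ := -1) hr hr' (by simp) hγ) 1 hz
    have a3 := norm_sub_le (U r 1 (xs r 1 γ) 1 z) (U r (-1) (xs r (-1) γ) 1 z)
    have a4 : 5 * (800 * r * r) ≤ 1 / 20000 := by nlinarith
    rw [← hu] at a3
    linarith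
  have h8 : ‖exp u - 1‖ ≤ 2 / 10000 := by
    have := Complex.norm_exp_sub_one_le (x := u) (by linarith)
    linarith
  have e : am r γ z - 1 = q ^ 2 * (exp u - 1) + (q ^ 2 - 1) := by
    unfold am; rw [← hq, ← hu]; ring
  rw [e]
  refine (norm_add_le _ _).trans ?_
  rw [norm_mul]
  nlinarith [norm_nonneg (q ^ 2), norm_nonneg (exp u - 1)]

lemma gg_factor {r γ : ℝ} (hr : 0 < r) (hr' : r ≤ 1 / 10 ^ 8)
    (hγ : γ ∈ Icc (1 / 4 : ℝ) (1 / 2)) {z : ℂ} (hz : ‖z - 1‖ = 1 / 8) :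
    gg r γ z = am r γ z * exp (ss r γ (1 + r ^ 2 / (z - 1)) - ss r γ 1) := by
  have hb1 : bb 1 = 1 := by simp [bb]
  have hη : (r : ℂ) / (z - bb 1) ∈ ball (0 : ℂ) 2 := by
    rw [mem_ball_zero_iff, norm_div, Complex.norm_real, Real.norm_of_nonneg hr.le, hb1, hz]
    rw [div_lt_iff₀ (by norm_num)]
    linarith
  have h1 := xs_fixed (σ := 1) hr hr' (by simp) hγ 1 hη
  have h2 := xs_fixed (σ := -1) hr hr' (by simp) hγ 1 hη
  unfold gg am HH EE ss
  rw [S_eq r 1 _ 1 z, S_eq r (-1) _ 1 z, h1, h2, mul_assoc, ← Complex.exp_add, hb1]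
  congr 2
  have e : (r : ℂ) * (r / (z - 1)) = r ^ 2 / (z - 1) := by ring
  rw [e]
  push_cast
  ring

lemma JJ_estimate {r γ : ℝ} (hr : 0 < r) (hr' : r ≤ 1 / 10 ^ 8)
    (hγ : γ ∈ Icc (1 / 4 : ℝ) (1 / 2)) :
    ‖JJ r γ - ((r ^ 2 * (4 / (1 + γ) - 3) : ℝ) : ℂ)‖ ≤ r ^ 2 / 20 := by
  have hb1 : bb 1 = 1 := by simp [bb]
  have hO : ∀ z ∈ sphere (1 : ℂ) (1 / 8), z ∈ Om r := fun z hz =>
    circle_sub_Om hr hr' (ρ := 1 / 8) (by linarith) (by norm_num) (mem_sphere_iff_norm.mp hz)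
  have hr8 : r * r ≤ 1 / 10 ^ 8 * r := by nlinarith
  have hr4 : (r ^ 2) ^ 2 ≤ 1 / 10 ^ 16 * r ^ 2 := by
    have : (r * r) * (r * r) ≤ (1 / 10 ^ 8 * r) * (1 / 10 ^ 8 * r) :=
      mul_le_mul hr8 hr8 (by positivity) (by positivity)
    nlinarith
  set s' := deriv (ss r γ) 1 with hs'
  have hds := deriv_ss hr hr' hγ
  rw [← hs'] at hds
  have hL : |4 / (1 + γ) - 3| ≤ 1 := by
    have h0 : 0 < 1 + γ := by linarith [hγ.1]
    rw [abs_le]
    constructor
    · rw [le_sub_iff_add_le, le_div_iff₀ h0]; linarith [hγ.2]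
    · rw [sub_le_iff_le_add, div_le_iff₀ h0]; linarith [hγ.1]
  have hs2 : ‖s'‖ ≤ 2 := by
    have := norm_add_le (s' - ((4 / (1 + γ) - 3 : ℝ) : ℂ)) ((4 / (1 + γ) - 3 : ℝ) : ℂ)
    rw [sub_add_cancel, Complex.norm_real, Real.norm_eq_abs] at this
    linarith
  have hss_diff : DifferentiableOn ℂ (ss r γ) (ball 1 (1 / 4)) := by
    have h1 := V_diff (σ := 1) hr hr' (by simp) hγ 1
    have h2 := V_diff (σ := -1) hr hr' (by simp) hγ 1
    rw [hb1] at h1 h2
    exact h1.add h2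
  have hss_bound : ∀ z ∈ ball (1 : ℂ) (1 / 4), ‖ss r γ z‖ ≤ 50 := by
    intro z hz
    have h1 := V_bound (σ := 1) hr hr' (by simp) hγ 1 (z := z) (by rw [hb1]; exact hz)
    have h2 := V_bound (σ := -1) hr hr' (by simp) hγ 1 (z := z) (by rw [hb1]; exact hz)
    unfold ss
    exact (norm_add_le _ _).trans (by linarith)
  have hm : (1 : ℂ) ∈ ball (1 : ℂ) (1 / 4) := mem_ball_self (by norm_num)
  have hma : (1 : ℂ) ∈ ball (bb 1) (1 / 4) := by rw [hb1]; exact hm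
  have key : ∀ z ∈ sphere (1 : ℂ) (1 / 8), ‖gg r γ z - am r γ z -
      (z - 1)⁻¹ * ((r ^ 2 * s') * am r γ z)‖ ≤ r ^ 2 / 1000 := by
    intro z hz
    have hz8 : ‖z - 1‖ = 1 / 8 := mem_sphere_iff_norm.mp hz
    rw [gg_factor hr hr' hγ hz8]
    set w : ℂ := r ^ 2 / (z - 1) with hw
    have hwn : ‖w‖ = 8 * r ^ 2 := by
      rw [hw, norm_div, norm_pow, Complex.norm_real, Real.norm_of_nonneg hr.le, hz8]
      ring
    have hwb : 1 + w ∈ ball (1 : ℂ) (1 / 4) := by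
      rw [mem_ball_iff_norm, add_sub_cancel_left, hwn]
      nlinarith
    have h1 := second_order (f := ss r γ) (c := 1) (R := 1 / 4) (M := 100) (by norm_num)
      hss_diff (by
        intro ξ hξ
        have a1 := hss_bound ξ hξ
        have a2 := hss_bound 1 hm
        exact (norm_sub_le _ _).trans (by linarith)) hwb
    rw [add_sub_cancel_left, ← hs', hwn] at h1
    set D := ss r γ (1 + w) - ss r γ 1 with hD
    have h1' : ‖D - w * s'‖ ≤ r ^ 2 / 10 ^ 10 := by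
      refine h1.trans ?_
      have : (8 * r ^ 2) ^ 2 = 64 * (r ^ 2) ^ 2 := by ring
      rw [this]
      norm_num at hr4 ⊢
      nlinarith
    have h2 : ‖D‖ ≤ 17 * r ^ 2 := by
      have := norm_add_le (D - w * s') (w * s')
      rw [sub_add_cancel, norm_mul, hwn] at this
      have h3 : 8 * r ^ 2 * ‖s'‖ ≤ 8 * r ^ 2 * 2 := by gcongr
      have h4 : r ^ 2 / 10 ^ 10 ≤ r ^ 2 := by
        rw [div_le_iff₀ (by norm_num)]; nlinarith [sq_nonneg r]
      linarith
    have h3 : ‖exp D - 1 - D‖ ≤ r ^ 2 / 10 ^ 10 := by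
      have h4 : ‖D‖ ≤ 1 := h2.trans (by nlinarith)
      refine (Complex.norm_exp_sub_one_sub_id_le h4).trans ?_
      have h5 : ‖D‖ ^ 2 ≤ (17 * r ^ 2) ^ 2 := by gcongr
      refine h5.trans ?_
      have : (17 * r ^ 2) ^ 2 = 289 * (r ^ 2) ^ 2 := by ring
      rw [this]
      norm_num at hr4 ⊢
      nlinarith
    have h4 : ‖am r γ z‖ ≤ 2 := by
      have h5 := am_near hr hr' hγ (z := z) (by
        rw [hb1, mem_ball_iff_norm, hz8]; norm_num)
      have := norm_add_le (am r γ z - 1) 1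
      rw [sub_add_cancel, norm_one] at this
      linarith
    have e : am r γ z * exp D - am r γ z - (z - 1)⁻¹ * ((r ^ 2 * s') * am r γ z)
        = am r γ z * ((exp D - 1 - D) + (D - w * s')) := by
      rw [hw]; ring
    rw [e, norm_mul]
    have h5 := norm_add_le (exp D - 1 - D) (D - w * s')
    have h6 : ‖am r γ z‖ * ‖(exp D - 1 - D) + (D - w * s')‖ ≤
        2 * (r ^ 2 / 10 ^ 10 + r ^ 2 / 10 ^ 10) := by
      apply mul_le_mul h4 (h5.trans (by linarith)) (norm_nonneg _) (by norm_num)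
    refine h6.trans ?_
    have : 0 ≤ r ^ 2 := sq_nonneg r
    norm_num
    linarith
  have hres := abstract_res (a := am r γ) (g := gg r γ) (c := 1) (R := 1 / 8)
    (d := r ^ 2 * s') (ε := r ^ 2 / 1000) (by norm_num)
    ((am_diff hr hr' hγ).mono (by rw [hb1]; exact closedBall_subset_ball (by norm_num)))
    ((gg_diff hr hr' hγ).continuousOn.mono hO) key
  have ham := am_near hr hr' hγ hma
  have e : JJ r γ - ((r ^ 2 * (4 / (1 + γ) - 3) : ℝ) : ℂ) =
      (JJ r γ - r ^ 2 * s' * am r γ 1) +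
      (r ^ 2 : ℂ) * (s' * (am r γ 1 - 1) + (s' - ((4 / (1 + γ) - 3 : ℝ) : ℂ))) := by
    push_cast; ring
  rw [e]
  refine (norm_add_le _ _).trans ?_
  have h9 : ‖JJ r γ - r ^ 2 * s' * am r γ 1‖ ≤ 1 / 8 * (r ^ 2 / 1000) := hres
  have h10 : ‖s' * (am r γ 1 - 1) + (s' - ((4 / (1 + γ) - 3 : ℝ) : ℂ))‖ ≤ 2 * (1 / 100) + 1 / 1000 := by
    refine (norm_add_le _ _).trans ?_
    rw [norm_mul]
    have : ‖s'‖ * ‖am r γ 1 - 1‖ ≤ 2 * (1 / 100) :=
      mul_le_mul hs2 ham (norm_nonneg _) (by norm_num)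
    linarith
  rw [norm_mul, norm_pow, Complex.norm_real, Real.norm_of_nonneg hr.le]
  have h11 : r ^ 2 * ‖s' * (am r γ 1 - 1) + (s' - ((4 / (1 + γ) - 3 : ℝ) : ℂ))‖ ≤
      r ^ 2 * (2 * (1 / 100) + 1 / 1000) := by gcongr
  have : 0 ≤ r ^ 2 := sq_nonneg r
  linarith

lemma exists_gamma {r : ℝ} (hr : 0 < r) (hr' : r ≤ 1 / 10 ^ 8) :
    ∃ γ ∈ Icc (1 / 4 : ℝ) (1 / 2), JJ r γ = 0 := by
  have hc : ContinuousOn (fun γ => (JJ r γ).re) (Icc (1 / 4 : ℝ) (1 / 2)) :=
    Complex.continuous_re.comp_continuousOn (JJ_cont hr hr')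
  have hr2 : 0 < r ^ 2 := by positivity
  have h1 : 0 ≤ (JJ r (1 / 4)).re := by
    have h := JJ_estimate hr hr' (γ := 1 / 4) ⟨le_refl _, by norm_num⟩
    have h2 := (Complex.abs_re_le_norm _).trans h
    rw [Complex.sub_re, Complex.ofReal_re] at h2
    have h3 := (abs_le.mp h2).1
    have e : r ^ 2 * (4 / (1 + 1 / 4) - 3) = r ^ 2 / 5 := by ring
    rw [e] at h3
    linarith
  have h2 : (JJ r (1 / 2)).re ≤ 0 := by
    have h := JJ_estimate hr hr' (γ := 1 / 2) ⟨by norm_num, le_refl _⟩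
    have h2 := (Complex.abs_re_le_norm _).trans h
    rw [Complex.sub_re, Complex.ofReal_re] at h2
    have h3 := (abs_le.mp h2).2
    have e : r ^ 2 * (4 / (1 + 1 / 2) - 3) = -(r ^ 2 / 3) := by ring
    rw [e] at h3
    linarith
  obtain ⟨γ, hγ, h3⟩ := intermediate_value_Icc' (by norm_num : (1 / 4 : ℝ) ≤ 1 / 2) hc
    (show (0 : ℝ) ∈ Icc _ _ from ⟨h2, h1⟩)
  refine ⟨γ, hγ, Complex.ext h3 ?_⟩
  rw [Complex.zero_im]
  exact JJ_real hr hr' hγ

end Pool.Agent.Helper164.Build
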