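import Mathlib
import Pool.Agent.Helper164.Build6
import Pool.Agent.Helper164.Curves

open Complex Metric Set Filter Topology MeasureTheory
open scoped ComplexConjugate Real

namespace Pool.Agent.Helper164.Final

open Pool.Agent.Helper164.Build Pool.Agent.Helper164.Three Pool.Agent.Helper164.Topo

/-- There is a parameter for which all periods vanish. -/
lemma exists_good {r : ℝ} (hr : 0 < r) (hr' : r ≤ 1 / 10 ^ 8) :
    ∃ γ ∈ Icc (1 / 4 : ℝ) (1 / 2),
      (∮ z in C(0, 3 * r / 4), gg r γ z) = 0 ∧ (∮ z in C(1, 3 * r / 4), gg r γ z) = 0 ∧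
      (∮ z in C(-1, 3 * r / 4), gg r γ z) = 0 := by
  obtain ⟨γ, hγ, hJ⟩ := exists_gamma hr hr'
  have hρ : 0 < 3 * r / 4 := by positivity
  have hc : ContinuousOn (gg r γ) (Om r) := (gg_diff hr hr' hγ).continuousOn
  have h1 : (∮ z in C(1, 1 / 8), gg r γ z) = 0 := by
    unfold JJ at hJ
    exact (mul_eq_zero.mp hJ).resolve_left (inv_ne_zero two_pi_I_ne_zero)
  have hann : ∀ z : ℂ, 3 * r / 4 ≤ ‖z - 1‖ → ‖z - 1‖ ≤ 1 / 8 → z ∈ Om r := fun z a b =>
    circle_sub_Om hr hr' (ρ := ‖z - 1‖) (by linarith) (by linarith) rfl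
  have h2 : (∮ z in C(1, 3 * r / 4), gg r γ z) = 0 := by
    rw [← h1]
    symm
    apply Complex.circleIntegral_eq_of_differentiable_on_annulus_off_countable hρ (by linarith)
      countable_empty
    · apply hc.mono
      rintro z ⟨a, b⟩
      rw [mem_closedBall_iff_norm] at a
      rw [mem_ball_iff_norm, not_lt] at b
      exact hann z b a
    · rintro z ⟨⟨a, b⟩, -⟩
      rw [mem_ball_iff_norm] at a
      rw [mem_closedBall_iff_norm, not_le] at b
      exact (gg_diff hr hr' hγ).differentiableAt ((Om_open r).mem_nhds (hann z b.le a.le))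
  refine ⟨γ, hγ, ?_, h2, ?_⟩
  · have h3 : (∮ z in C(0, 3 * r / 4), gg r γ z) = ∮ z in C(0, 3 * r / 4), gg r γ (-z) := by
      apply circleIntegral.integral_congr hρ.le
      intro z hz
      rw [mem_sphere_iff_norm, sub_zero] at hz
      exact (gg_even hr hr' (circle_sub_Om0 hr hr' (by linarith) (by linarith) hz)).symm
    rw [circleIntegral_neg_arg, neg_zero] at h3
    have h4 : (2 : ℂ) * (∮ z in C(0, 3 * r / 4), gg r γ z) = 0 := by
      linear_combination h3
    exact (mul_eq_zero.mp h4).resolve_left two_ne_zero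
  · have h3 : (∮ z in C(-1, 3 * r / 4), gg r γ z) = ∮ z in C(-1, 3 * r / 4), gg r γ (-z) := by
      apply circleIntegral.integral_congr hρ.le
      intro z hz
      rw [mem_sphere_iff_norm, sub_neg_eq_add] at hz
      exact (gg_even hr hr' (circle_sub_Om' hr hr' (by linarith) (by linarith) hz)).symm
    rw [h3, circleIntegral_neg_arg, neg_neg, h2, neg_zero]

/-- open neighbourhood of the closed domain -/
def Nb (r : ℝ) : Set ℂ :=
  {z | ‖z‖ < 150 ∧ 3 * r / 4 < ‖z‖ ∧ 3 * r / 4 < ‖z - 1‖ ∧ 3 * r / 4 < ‖z + 1‖}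

lemma Nb_open (r : ℝ) : IsOpen (Nb r) := by
  have h1 : IsOpen {z : ℂ | ‖z‖ < 150} := isOpen_lt continuous_norm continuous_const
  have h2 : IsOpen {z : ℂ | 3 * r / 4 < ‖z‖} := isOpen_lt continuous_const continuous_norm
  have h3 : IsOpen {z : ℂ | 3 * r / 4 < ‖z - 1‖} :=
    isOpen_lt continuous_const (continuous_id.sub continuous_const).norm
  have h4 : IsOpen {z : ℂ | 3 * r / 4 < ‖z + 1‖} :=
    isOpen_lt continuous_const (continuous_id.add continuous_const).norm
  exact h1.inter (h2.inter (h3.inter h4))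

lemma Nb_Om {r : ℝ} (hr : 0 < r) : Nb r ⊆ Om r := fun z hz =>
  ⟨by linarith [hz.1], by linarith [hz.2.1], by linarith [hz.2.2.1], by linarith [hz.2.2.2]⟩

lemma Reg_Nb {r : ℝ} (hr : 0 < r) : Reg r 100 ⊆ Nb r := fun z hz =>
  ⟨by linarith [hz.1], by linarith [hz.2.1], by linarith [hz.2.2.1], by linarith [hz.2.2.2]⟩

/-- The conformal map. -/
lemma exists_map {r : ℝ} (hr : 0 < r) (hr' : r ≤ 1 / 10 ^ 8) :
    ∃ γ ∈ Icc (1 / 4 : ℝ) (1 / 2), ∃ f : ℂ → ℂ, (∀ z ∈ Nb r, HasDerivAt f (gg r γ z) z) ∧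
      InjOn f (Reg r 100) := by
  obtain ⟨γ, hγ, i0, i1, i2⟩ := exists_good hr hr'
  obtain ⟨f, hf, hinj⟩ := primitive_three (Om_open r) (gg_diff hr hr' hγ) hr hr' (by
    rintro z ⟨a, b, c, d⟩
    exact ⟨by linarith, by linarith, by linarith, by linarith⟩)
    (fun z hz => gg_near_one hr hr' hγ hz) i0 i1 i2
  refine ⟨γ, hγ, f, fun z hz => hf z hz.1 hz.2.1 hz.2.2.1 hz.2.2.2, ?_⟩
  intro a ha b hb hab
  have h := hinj a ha b hb
  rw [hab, sub_self, zero_sub, norm_neg] at h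
  have h2 : ‖a - b‖ = 0 := le_antisymm (by linarith) (norm_nonneg _)
  exact sub_eq_zero.mp (norm_eq_zero.mp h2)

/-- The relation on each boundary circle. -/
lemma bdry_all {r γ : ℝ} (hr : 0 < r) (hr' : r ≤ 1 / 10 ^ 8)
    (hγ : γ ∈ Icc (1 / 4 : ℝ) (1 / 2)) (j : Fin 4) :
    ∃ κ : ℝ, κ ≠ 0 ∧ ∀ z : ℂ, ‖z - cen j‖ = rad r j →
      hh r γ z * (z - cen j) = ((κ * ‖gg r γ z‖ : ℝ) : ℂ) := by
  have hb0 : bb 0 = 0 := by simp [bb]
  have hb1 : bb 1 = 1 := by simp [bb]
  fin_cases j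
  · refine ⟨1, one_ne_zero, fun z hz => ?_⟩
    change ‖z - 0‖ = 100 at hz
    change hh r γ z * (z - 0) = _
    rw [sub_zero] at hz ⊢
    rw [one_mul]
    exact bdry_outer hr hr' hγ hz
  · obtain ⟨L, hL, h⟩ := bdry_small hr hr' hγ 0
    refine ⟨sgk 0 * L, mul_ne_zero (by simp [sgk]) hL.ne', fun z hz => ?_⟩
    have := h z (by rw [hb0]; exact hz)
    rw [hb0] at this
    exact this
  · obtain ⟨L, hL, h⟩ := bdry_small hr hr' hγ 1
    refine ⟨sgk 1 * L, mul_ne_zero (by simp [sgk]) hL.ne', fun z hz => ?_⟩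
    have := h z (by rw [hb1]; exact hz)
    rw [hb1] at this
    exact this
  · obtain ⟨L, hL, h⟩ := bdry_neg hr hr' hγ
    refine ⟨L, hL.ne', fun z hz => ?_⟩
    change ‖z - -1‖ = r at hz
    change hh r γ z * (z - -1) = _
    rw [sub_neg_eq_add] at hz ⊢
    exact h z hz

/-- The counterexample. -/
theorem counter : ∃ (G : Set ℂ) (Γ : Fin 4 → ℝ → ℂ),
    IsOpen G ∧ IsConnected G ∧ Bornology.IsBounded G ∧
    (∀ j, AnalyticOnNhd ℝ (Γ j) univ) ∧ (∀ j, Function.Periodic (Γ j) 1) ∧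
    (∀ j, InjOn (Γ j) (Ico 0 1)) ∧ (∀ j t, deriv (Γ j) t ≠ 0) ∧
    (∀ i j, i ≠ j → Disjoint (range (Γ i)) (range (Γ j))) ∧
    frontier G = ⋃ j, range (Γ j) ∧
    (¬ ∃ c : ℂ, ∃ r₁ r₂ : ℝ, 0 < r₁ ∧ r₁ < r₂ ∧ G = {z : ℂ | r₁ < ‖z - c‖ ∧ ‖z - c‖ < r₂}) ∧
    ∃ κ : Fin 4 → ℝ, (∀ j, κ j ≠ 0) ∧
      ∀ (U : Set ℂ) (φ : ℂ → ℂ), IsOpen U → closure G ⊆ U → DifferentiableOn ℂ φ U →
        (κ 0 : ℂ) * (∫ t in (0 : ℝ)..1, φ (Γ 0 t) * (((‖deriv (Γ 0) t‖ : ℝ)) : ℂ)) =
        (κ 1 : ℂ) * (∫ t in (0 : ℝ)..1, φ (Γ 1 t) * (((‖deriv (Γ 1) t‖ : ℝ)) : ℂ)) +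
        (κ 2 : ℂ) * (∫ t in (0 : ℝ)..1, φ (Γ 2 t) * (((‖deriv (Γ 2) t‖ : ℝ)) : ℂ)) +
        (κ 3 : ℂ) * (∫ t in (0 : ℝ)..1, φ (Γ 3 t) * (((‖deriv (Γ 3) t‖ : ℝ)) : ℂ)) := by
  set r : ℝ := 1 / 10 ^ 8 with hrdef
  have hr : 0 < r := by rw [hrdef]; norm_num
  have hr' : r ≤ 1 / 10 ^ 8 := le_refl _
  clear_value r
  obtain ⟨γ, hγ, f, hf, hinj⟩ := exists_map hr hr'
  have hclD := closure_Dom hr hr'
  have hDN : Dom r ⊆ Nb r := (Dom_sub_Reg r).trans (Reg_Nb hr)
  have hfd : DifferentiableOn ℂ f (Nb r) := fun z hz =>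
    (hf z hz).differentiableAt.differentiableWithinAt
  have hfc : ContinuousOn f (Reg r 100) := hfd.continuousOn.mono (Reg_Nb hr)
  have hsph : ∀ j, sphere (cen j) (rad r j) ⊆ Reg r 100 := by
    intro j z hz
    have : z ∈ Reg r 100 \ Dom r := by
      rw [bdry_eq hr hr']; exact mem_iUnion.mpr ⟨j, hz⟩
    exact this.1
  have hcurR : ∀ j t, cur r j t ∈ Reg r 100 := fun j t => hsph j (cur_mem hr j t)
  have hopen : IsOpen (f '' Dom r) :=
    open_image (Nb_open r) (Dom_open r) hDN hf (fun z hz => gg_ne hr hr' hγ (Nb_Om hr hz))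
  have hrange : ∀ j, range (fun t => f (cur r j t)) = f '' sphere (cen j) (rad r j) := by
    intro j
    rw [← range_cur hr j, ← range_comp]
    rfl
  have hder : ∀ j t, HasDerivAt (fun t => f (cur r j t))
      (((2 * π : ℝ) * (circleMap 0 (rad r j) (2 * π * t) * I)) * gg r γ (cur r j t)) t := by
    intro j t
    have h1 := hf _ (Reg_Nb hr (hcurR j t))
    have h2 := cur_deriv r j t
    have h3 := h1.scomp t h2
    exact h3
  have hdern : ∀ j t, ‖deriv (fun t => f (cur r j t)) t‖ =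
      ‖gg r γ (cur r j t)‖ * (2 * π * rad r j) := by
    intro j t
    rw [(hder j t).deriv, norm_mul, norm_mul, norm_mul, norm_circleMap_zero, Complex.norm_I,
      Complex.norm_real, Real.norm_of_nonneg Real.two_pi_pos.le, abs_of_pos (rad_pos hr j)]
    ring
  have hdis : ∀ i j, i ≠ j → Disjoint (range (fun t => f (cur r i t)))
      (range (fun t => f (cur r j t))) := by
    intro i j hij
    rw [hrange, hrange, disjoint_left]
    rintro _ ⟨z, hz, rfl⟩ ⟨w, hw, he⟩
    have := hinj (hsph j hw) (hsph i hz) he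
    rw [this] at hw
    exact (disjoint_left.mp (sph_disjoint hr hr' i j hij)) hz hw
  have hfr : frontier (f '' Dom r) = ⋃ j, range (fun t => f (cur r j t)) := by
    rw [frontier_image (by rw [hclD]; exact hfc) (by rw [hclD]; exact hinj)
      (by rw [hclD]; exact Reg_compact r 100) hopen, hclD, bdry_eq hr hr', image_iUnion]
    exact iUnion_congr (fun j => (hrange j).symm)
  refine ⟨f '' Dom r, fun j t => f (cur r j t), hopen, ?_, ?_, ?_, ?_, ?_, ?_, hdis, hfr, ?_, ?_⟩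
  · exact (Dom_connected hr hr').image f (hfc.mono (Dom_sub_Reg r))
  · exact ((Reg_compact r 100).image_of_continuousOn hfc).isBounded.subset
      (image_mono (Dom_sub_Reg r))
  · intro j t _
    have h1 : AnalyticAt ℂ f (cur r j t) :=
      hfd.analyticAt ((Nb_open r).mem_nhds (Reg_Nb hr (hcurR j t)))
    have h2 : AnalyticAt ℝ f (cur r j t) := h1.restrictScalars
    exact AnalyticAt.comp (f := cur r j) (g := f) h2 (cur_analytic r j t)
  · intro j t
    show f (cur r j (t + 1)) = f (cur r j t)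
    rw [cur_periodic r j t]
  · intro j s hs t ht he
    exact cur_inj hr j hs ht (hinj (hcurR j s) (hcurR j t) he)
  · intro j t h0
    have h1 := hdern j t
    rw [h0, norm_zero] at h1
    have h2 : 0 < ‖gg r γ (cur r j t)‖ :=
      norm_pos_iff.mpr (gg_ne hr hr' hγ (Nb_Om hr (Reg_Nb hr (hcurR j t))))
    have h3 : 0 < ‖gg r γ (cur r j t)‖ * (2 * π * rad r j) :=
      mul_pos h2 (mul_pos Real.two_pi_pos (rad_pos hr j))
    linarith
  · rintro ⟨c, r₁, r₂, h1, h12, he⟩
    refine not_annulus (Γ := fun j => range (fun t => f (cur r j t))) ?_ ?_ hdis hfr h1 h12 he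
    · intro j
      rw [hrange j]
      exact ((isCompact_sphere (cen j) (rad r j)).image_of_continuousOn
        (hfc.mono (hsph j))).isClosed
    · intro j
      exact range_nonempty _
  · choose κ hκ hrel using (bdry_all hr hr' hγ)
    refine ⟨fun j => κ j / rad r j, fun j => div_ne_zero (hκ j) (rad_pos hr j).ne', ?_⟩
    intro U φ hU hGU hφ
    -- the holomorphic function on the circular side
    set W : Set ℂ := Nb r ∩ f ⁻¹' U with hWdef
    have hW : IsOpen W := hfd.continuousOn.isOpen_inter_preimage (Nb_open r) hU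
    have hcl : closure (f '' Dom r) = f '' Reg r 100 := by
      rw [← hclD]
      apply Subset.antisymm
      · refine closure_minimal (image_mono subset_closure) ?_
        rw [hclD]
        exact ((Reg_compact r 100).image_of_continuousOn hfc).isClosed
      · exact ContinuousOn.image_closure (by rw [hclD]; exact hfc)
    have hRW : Reg r 100 ⊆ W := fun z hz =>
      ⟨Reg_Nb hr hz, hGU (by rw [hcl]; exact mem_image_of_mem f hz)⟩
    have hH : DifferentiableOn ℂ (fun z => φ (f z) * hh r γ z) W := by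
      intro z hz
      apply DifferentiableAt.differentiableWithinAt
      have h1 : DifferentiableAt ℂ φ (f z) := hφ.differentiableAt (hU.mem_nhds hz.2)
      have h2 : DifferentiableAt ℂ f z := (hf z hz.1).differentiableAt
      have h3 : DifferentiableAt ℂ (hh r γ) z :=
        (hh_diff hr hr' hγ).differentiableAt ((Om_open r).mem_nhds (Nb_Om hr hz.1))
      exact (DifferentiableAt.comp z h1 h2).mul h3
    have hC := cauchy_three hW hH hr (by linarith) (by norm_num : (2 : ℝ) ≤ 100) hRW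
    have hI : ∀ j, (∮ z in C(cen j, rad r j), φ (f z) * hh r γ z) =
        I * (((κ j / rad r j : ℝ) : ℂ) *
          (∫ t in (0 : ℝ)..1, φ (f (cur r j t)) *
            (((‖deriv (fun t => f (cur r j t)) t‖ : ℝ)) : ℂ))) := by
      intro j
      rw [circle_relation (F := fun z => φ (f z)) (g := gg r γ) (rad_pos hr j) (hrel j)]
      simp_rw [hdern j]
      push_cast
      rw [← mul_assoc, mul_div_assoc]
      rfl
    have h0 := hI 0
    have h1 := hI 1
    have h2 := hI 2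
    have h3 := hI 3
    change (∮ z in C(0, 100), φ (f z) * hh r γ z) = _ at h0
    change (∮ z in C(0, r), φ (f z) * hh r γ z) = _ at h1
    change (∮ z in C(1, r), φ (f z) * hh r γ z) = _ at h2
    change (∮ z in C(-1, r), φ (f z) * hh r γ z) = _ at h3
    rw [h0, h1, h2, h3, ← mul_add, ← mul_add] at hC
    exact mul_left_cancel₀ I_ne_zero hC

end Pool.Agent.Helper164.Final
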